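import Mathlib.CategoryTheory.Category.Init
import Mathlib.Combinatorics.SimpleGraph.Finite
import Mathlib.Probability.Distributions.Uniform

/-! The query model and the degree distribution parameters. -/

open scoped ENNReal Classical

noncomputable section

namespace Pool.Agent.MP_16e32a_lc

/-- Randomised query algorithms on the vertex set `V` with outputs in `α`. -/
inductive Alg (V α : Type) : Type
  | ret : α → Alg V α
  | vertex : (V → Alg V α) → Alg V α
  | degree : V → (ℕ → Alg V α) → Alg V α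
  | neighbour : V → (Option V → Alg V α) → Alg V α
  | coin : PMF ℕ → (ℕ → Alg V α) → Alg V α

variable {V : Type} [Fintype V]

/-- A uniformly random neighbour of `v` (`none` if there is none). -/
def randNbr (G : SimpleGraph V) (v : V) : PMF (Option V) :=
  if h : (G.neighborFinset v).Nonempty then (PMF.uniformOfFinset _ h).map some else PMF.pure none

/-- Count one more query. -/
def tick {α : Type} (p : PMF (α × ℕ)) : PMF (α × ℕ) := p.map fun x => (x.1, x.2 + 1)

/-- The joint law of the output and of the number of queries. -/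
def run [Nonempty V] {α : Type} (G : SimpleGraph V) : Alg V α → PMF (α × ℕ)
  | .ret a => PMF.pure (a, 0)
  | .vertex k => (PMF.uniformOfFintype V).bind fun v => tick (run G (k v))
  | .degree v k => tick (run G (k (G.degree v)))
  | .neighbour v k => (randNbr G v).bind fun w => tick (run G (k w))
  | .coin p k => p.bind fun i => run G (k i)

/-- `N(x)`, the number of vertices of degree at least `x`. -/
def ccdh (G : SimpleGraph V) (x : ℝ) : ℕ := (Finset.univ.filter fun v => x ≤ (G.degree v : ℝ)).card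

def hIndex (G : SimpleGraph V) : ℕ := sSup {d : ℕ | d ≤ ccdh G d}

def mu (G : SimpleGraph V) : ℕ := sInf {z : ℕ | ∃ d : ℕ, 1 ≤ d ∧ 1 ≤ ccdh G d ∧ z = d * ccdh G d}

def HasParams (G : SimpleGraph V) (m h μ : ℕ) : Prop :=
  G.edgeFinset.card = m ∧ hIndex G = h ∧ mu G = μ

def IsEstimate (G : SimpleGraph V) (ε : ℝ) (f : ℝ → ℝ) : Prop :=
  ∀ d : ℝ, 0 ≤ d → (1 - ε) * ccdh G ((1 + ε) * d) ≤ f d ∧ f d ≤ (1 + ε) * ccdh G ((1 - ε) * d)

def Solves [Nonempty V] (A : Alg V (ℝ → ℝ)) (G : SimpleGraph V) (ε : ℝ) : Prop :=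
  2 / 3 ≤ (run G A).toOuterMeasure {x | IsEstimate G ε x.1}

def expectedQueries [Nonempty V] (A : Alg V (ℝ → ℝ)) (G : SimpleGraph V) : ℝ≥0∞ :=
  ∑' x, run G A x * (x.2 : ℝ≥0∞)

def bound (n m h μ : ℕ) : ℝ := (n : ℝ) / max (h : ℝ) ((μ : ℝ) / h) + (m : ℝ) / μ

end Pool.Agent.MP_16e32a_lc
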