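import Mathlib.Tactic.Monotonicity.Lemmas
import Mathlib.Combinatorics.SimpleGraph.DegreeSum
import Mathlib.Order.CompletePartialOrder
import Pool.Agent.MP_16e32a_lc.Defs

-- ======== part 0: formerly Pool.Agent.MP_16e32a_lc.Params
section MrgPart0

/-! Elementary facts on the parameters. -/

open scoped Classical
open Finset

noncomputable section

namespace Pool.Agent.MP_16e32a_lc

variable {V : Type} [Fintype V] (G : SimpleGraph V)

def prof (d : ℕ) : ℕ := (univ.filter fun v => d ≤ G.degree v).card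

lemma ccdh_nat (d : ℕ) : ccdh G d = prof G d := by
  simp only [ccdh, prof, Nat.cast_le]

lemma ccdh_eq (x : ℝ) : ccdh G x = prof G ⌈x⌉₊ := by
  simp only [ccdh, prof, Nat.ceil_le]

lemma ccdh_anti {x y : ℝ} (h : x ≤ y) : ccdh G y ≤ ccdh G x :=
  card_le_card fun v hv => by
    simp only [mem_filter, mem_univ, true_and] at hv ⊢
    exact h.trans hv

lemma prof_anti {x y : ℕ} (h : x ≤ y) : prof G y ≤ prof G x :=
  card_le_card fun v hv => by
    simp only [mem_filter, mem_univ, true_and] at hv ⊢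
    exact h.trans hv

lemma prof_le (d : ℕ) : prof G d ≤ Fintype.card V := card_le_univ _

lemma prof_eq_sum (d : ℕ) : prof G d = ∑ v, if d ≤ G.degree v then 1 else 0 := by
  rw [prof, card_filter]

lemma hIndex_bdd : BddAbove {d : ℕ | d ≤ ccdh G d} :=
  ⟨Fintype.card V, fun d hd => le_trans hd (by rw [ccdh_nat]; exact prof_le G d)⟩

lemma hIndex_le_prof : hIndex G ≤ prof G (hIndex G) := by
  have := Nat.sSup_mem (s := {d : ℕ | d ≤ ccdh G d}) ⟨0, Nat.zero_le _⟩ (hIndex_bdd G)
  rwa [Set.mem_ofPred_eq, ccdh_nat] at this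

lemma le_hIndex {d : ℕ} (h : d ≤ prof G d) : d ≤ hIndex G :=
  le_csSup (hIndex_bdd G) (by rw [Set.mem_ofPred_eq, ccdh_nat]; exact h)

lemma prof_succ_le : prof G (hIndex G + 1) ≤ hIndex G := by
  by_contra h
  have := le_hIndex G (not_le.1 h)
  omega

lemma hIndex_eq {H : ℕ} (h1 : H ≤ prof G H) (h2 : prof G (H + 1) ≤ H) : hIndex G = H := by
  refine le_antisymm ?_ (le_hIndex G h1)
  by_contra h
  have := (hIndex_le_prof G).trans (prof_anti G (show H + 1 ≤ hIndex G from not_le.1 h))
  omega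

lemma mu_le {d : ℕ} (h1 : 1 ≤ d) (h2 : 1 ≤ prof G d) : mu G ≤ d * prof G d :=
  Nat.sInf_le ⟨d, h1, by rwa [ccdh_nat], by rw [ccdh_nat]⟩

lemma mu_eq {z d : ℕ} (h1 : 1 ≤ d) (h2 : 1 ≤ prof G d) (hz : z = d * prof G d)
    (h : ∀ d, 1 ≤ d → 1 ≤ prof G d → z ≤ d * prof G d) : mu G = z := by
  refine le_antisymm (hz ▸ mu_le G h1 h2) (le_csInf ⟨_, d, h1, by rwa [ccdh_nat], rfl⟩ ?_)
  rintro _ ⟨d, h1, h2, rfl⟩
  rw [ccdh_nat] at h2 ⊢
  exact h d h1 h2

lemma degsum : ∑ v, G.degree v = 2 * G.edgeFinset.card := G.sum_degrees_eq_twice_card_edges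

variable {G} {m h μ : ℕ}

lemma HasParams.one_le_prof (hp : HasParams G m h μ) (hm : 0 < m) : 1 ≤ prof G 1 := by
  by_contra hc
  have h0 : ∀ v, G.degree v = 0 := by
    intro v
    by_contra hv
    exact hc (card_pos.2 ⟨v, by simp only [mem_filter, mem_univ, true_and]; omega⟩)
  have := degsum G
  simp only [h0, sum_const_zero, hp.1] at this
  omega

lemma HasParams.h_pos (hp : HasParams G m h μ) (hm : 0 < m) : 1 ≤ h :=
  hp.2.1 ▸ le_hIndex G (hp.one_le_prof hm)

lemma HasParams.le_prof (hp : HasParams G m h μ) {d : ℕ} (hd : d ≤ h) : h ≤ prof G d := by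
  rw [← hp.2.1] at hd ⊢
  exact (hIndex_le_prof G).trans (prof_anti G hd)

lemma HasParams.prof_le_h (hp : HasParams G m h μ) {d : ℕ} (hd : h < d) : prof G d ≤ h := by
  rw [← hp.2.1] at hd ⊢
  exact (prof_anti G hd).trans (prof_succ_le G)

lemma HasParams.mu_le (hp : HasParams G m h μ) {d : ℕ} (h1 : 1 ≤ d) (h2 : 1 ≤ prof G d) :
    μ ≤ d * prof G d := hp.2.2 ▸ MP_16e32a_lc.mu_le G h1 h2

lemma HasParams.h_le_mu (hp : HasParams G m h μ) (hm : 0 < m) : h ≤ μ := by
  rw [← hp.2.2]
  refine le_csInf ⟨_, 1, le_rfl, by rw [ccdh_nat]; exact hp.one_le_prof hm, rfl⟩ ?_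
  rintro _ ⟨d, h1, h2, rfl⟩
  rw [ccdh_nat] at h2 ⊢
  rcases le_total d h with hd | hd
  · exact (hp.le_prof hd).trans (Nat.le_mul_of_pos_left _ h1)
  · exact hd.trans (Nat.le_mul_of_pos_right _ h2)

lemma HasParams.mu_le_card (hp : HasParams G m h μ) (hm : 0 < m) : μ ≤ Fintype.card V :=
  (hp.mu_le le_rfl (hp.one_le_prof hm)).trans (by simpa using prof_le G 1)

lemma mul_prof_le (G : SimpleGraph V) (d : ℕ) : d * prof G d ≤ ∑ v, G.degree v := by
  rw [prof_eq_sum, mul_sum]
  refine sum_le_sum fun v _ => ?_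
  split_ifs with h <;> simp [h]

lemma HasParams.sq_le (hp : HasParams G m h μ) : h * h ≤ 2 * m := by
  rw [← hp.1, ← degsum]
  exact (Nat.mul_le_mul_left _ (hp.le_prof le_rfl)).trans (mul_prof_le G h)

lemma HasParams.m_le (hp : HasParams G m h μ) : m ≤ Fintype.card V * h := by
  have h1 : ∑ v, G.degree v ≤
      ∑ v, (h + Fintype.card V * if h + 1 ≤ G.degree v then 1 else 0) := by
    refine sum_le_sum fun v _ => ?_
    split_ifs with hv
    · have := G.degree_lt_card_verts v
      omega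
    · omega
  rw [degsum, hp.1, sum_add_distrib, ← mul_sum, ← prof_eq_sum, sum_const, card_univ,
    smul_eq_mul] at h1
  have := Nat.mul_le_mul_left (Fintype.card V) (hp.prof_le_h (Nat.lt_succ_self h))
  simp only [Nat.succ_eq_add_one] at this
  omega

lemma sum_pow_le (L D : ℕ) : ∑ i ∈ range L, (if 2 ^ i ≤ D then 2 ^ i else 0) ≤ 2 * D := by
  suffices ∑ i ∈ range L, (if 2 ^ i ≤ D then 2 ^ i else 0) ≤ min (2 ^ L) (2 * D) from
    this.trans (min_le_right _ _)
  induction L with
  | zero => simp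
  | succ L ih =>
    rw [sum_range_succ, pow_succ]
    split_ifs <;> omega

lemma HasParams.log_le (hp : HasParams G m h μ) (hm : 0 < m) :
    (Nat.log 2 h + 1) * μ ≤ 4 * m := by
  have h1 : ∑ i ∈ range (Nat.log 2 h + 1), μ ≤ ∑ i ∈ range (Nat.log 2 h + 1),
      2 ^ i * prof G (2 ^ i) := by
    refine sum_le_sum fun i hi => hp.mu_le Nat.one_le_two_pow ((hp.h_pos hm).trans (hp.le_prof ?_))
    exact (Nat.pow_le_pow_right two_pos (Nat.lt_succ_iff.1 (mem_range.1 hi))).trans
      (Nat.pow_log_le_self 2 (by have := hp.h_pos hm; omega))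
  rw [sum_const, card_range, smul_eq_mul] at h1
  refine h1.trans ?_
  simp only [prof_eq_sum, mul_sum, mul_ite, mul_one, mul_zero]
  rw [sum_comm]
  refine (sum_le_sum fun v _ => sum_pow_le _ _).trans ?_
  rw [← mul_sum, degsum, hp.1]
  omega

end Pool.Agent.MP_16e32a_lc

end
end MrgPart0

-- ======== part 1: formerly Pool.Agent.MP_16e32a_lc.Adversary
section MrgPart1

/-! The adversary argument. -/

set_option linter.unusedSectionVars false

open scoped ENNReal Classical
open Finset

noncomputable section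

namespace Pool.Agent.MP_16e32a_lc

variable {V α : Type} [Fintype V] [Nonempty V]

/-- probability that the output is in `S` and at most `q` queries are made -/
def pr (G : SimpleGraph V) (t : Alg V α) (S : Set α) (q : ℕ) : ℝ≥0∞ :=
  (run G t).toOuterMeasure {x | x.1 ∈ S ∧ x.2 ≤ q}

lemma tick_apply (p : PMF (α × ℕ)) (s : Set (α × ℕ)) :
    (tick p).toOuterMeasure s = p.toOuterMeasure {x | (x.1, x.2 + 1) ∈ s} := by
  rw [tick, PMF.toOuterMeasure_map_apply]
  rfl

lemma tick_zero (p : PMF (α × ℕ)) (S : Set α) :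
    (tick p).toOuterMeasure {x | x.1 ∈ S ∧ x.2 ≤ 0} = 0 := by
  rw [tick_apply]; simp

lemma tick_succ (p : PMF (α × ℕ)) (S : Set α) (q : ℕ) :
    (tick p).toOuterMeasure {x | x.1 ∈ S ∧ x.2 ≤ q + 1} =
      p.toOuterMeasure {x | x.1 ∈ S ∧ x.2 ≤ q} := by
  rw [tick_apply]; simp

lemma pmf_le_one {β : Type} (p : PMF β) (s : Set β) : p.toOuterMeasure s ≤ 1 := by
  rw [← (p.toOuterMeasure_apply_eq_one_iff Set.univ).2 (Set.subset_univ _)]
  exact p.toOuterMeasure.mono (Set.subset_univ _)

lemma pr_le_one (G : SimpleGraph V) (t : Alg V α) (S : Set α) (q : ℕ) : pr G t S q ≤ 1 :=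
  pmf_le_one _ _

lemma tsum_randNbr (G : SimpleGraph V) (v : V) (g : Option V → ℝ≥0∞) :
    ∑' o, randNbr G v o * g o = if G.degree v = 0 then g none else
      (G.degree v : ℝ≥0∞)⁻¹ * ∑ w ∈ G.neighborFinset v, g (some w) := by
  unfold randNbr
  by_cases h : (G.neighborFinset v).Nonempty
  · have h' : G.degree v ≠ 0 := h.card_pos.ne'
    rw [dif_pos h, if_neg h', tsum_fintype, Fintype.sum_option]
    have h1 : ∀ w, ((PMF.uniformOfFinset _ h).map some) (some w) =
        PMF.uniformOfFinset _ h w := fun w => by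
      rw [PMF.map_apply, tsum_eq_single w]
      · simp
      · intro b hb
        simp [hb.symm]
    have h2 : ((PMF.uniformOfFinset _ h).map some) none = 0 := by
      rw [PMF.map_apply]; simp
    simp only [h1, h2, zero_mul, zero_add, PMF.uniformOfFinset_apply, ite_mul, mul_sum]
    rw [← sum_filter, filter_mem_eq_inter, univ_inter]
    rfl
  · have h' : G.degree v = 0 := by
      rwa [not_nonempty_iff_eq_empty, ← card_eq_zero] at h
    rw [dif_neg h, if_pos h', tsum_eq_single none]
    · simp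
    · intro b hb
      simp [PMF.pure_apply_of_ne _ _ hb]

/-- expected number of revealing events in the first `q` queries -/
def bad (G : SimpleGraph V) (S : Set V) (M : Set (V × V)) : Alg V α → ℕ → ℝ≥0∞
  | .ret _, _ => 0
  | .vertex _, 0 => 0
  | .vertex k, q + 1 => ∑' v, PMF.uniformOfFintype V v * bad G S M (k v) q
  | .degree _ _, 0 => 0
  | .degree v k, q + 1 => (if v ∈ S then 1 else 0) + bad G S M (k (G.degree v)) q
  | .neighbour _ _, 0 => 0
  | .neighbour v k, q + 1 => (if v ∈ S then 1 else 0) + ∑' o, randNbr G v o *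
      ((if ∃ w, o = some w ∧ (v, w) ∈ M then 1 else 0) + bad G S M (k o) q)
  | .coin p k, q => ∑' i, p i * bad G S M (k i) q

/-- `G` looks like `G0` outside of the vertices `S` and the directed edges `M` -/
def Near (G0 G : SimpleGraph V) (S : Set V) (M : Set (V × V)) : Prop :=
  ∀ v, v ∉ S → G.degree v = G0.degree v ∧ ∀ w, G0.Adj v w → (v, w) ∉ M → G.Adj v w

lemma sum_swap_le {β : Type} {s s0 : Finset β} (hc : s.card = s0.card) {M : Set β}
    (h : ∀ w ∈ s0, w ∉ M → w ∈ s) {f g : β → ℝ≥0∞} (hf : ∀ w, f w ≤ 1) (hfg : ∀ w, f w ≤ g w) :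
    ∑ w ∈ s, f w ≤ ∑ w ∈ s0, (g w + if w ∈ M then 1 else 0) := by
  have hsub : s0.filter (· ∉ M) ⊆ s := fun w hw => h w (mem_filter.1 hw).1 (mem_filter.1 hw).2
  rw [← sum_sdiff hsub, sum_add_distrib, add_comm]
  refine add_le_add ((sum_le_sum fun w _ => hfg w).trans
    (sum_le_sum_of_subset (filter_subset _ _))) ?_
  refine (sum_le_sum fun w _ => hf w).trans (le_of_eq ?_)
  rw [sum_const, card_sdiff_of_subset hsub, ← sum_filter, sum_const, hc,
    ← card_filter_add_card_filter_not (s := s0) (· ∈ M)]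
  simp

lemma pr_le_pr_add_bad {G0 G : SimpleGraph V} {S : Set V} {M : Set (V × V)} (h : Near G0 G S M)
    (A : Set α) (t : Alg V α) : ∀ q, pr G t A q ≤ pr G0 t A q + bad G0 S M t q := by
  induction t with
  | ret a => intro q; simp [pr, run, bad]
  | vertex k ih =>
    intro q
    cases q with
    | zero => simp only [pr, run, PMF.toOuterMeasure_bind_apply, tick_zero]; simp
    | succ q =>
      simp only [pr, run, PMF.toOuterMeasure_bind_apply, tick_succ, bad]
      rw [← ENNReal.tsum_add]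
      exact ENNReal.tsum_le_tsum fun v => by rw [← mul_add]; exact mul_le_mul_right (ih v q) _
  | degree v k ih =>
    intro q
    cases q with
    | zero => simp only [pr, run, tick_zero]; simp
    | succ q =>
      simp only [bad]
      split_ifs with hv
      · exact (pr_le_one _ _ _ _).trans (le_add_left le_self_add)
      · simp only [pr, run, tick_succ, (h v hv).1, zero_add]
        exact ih _ q
  | neighbour v k ih =>
    intro q
    cases q with
    | zero => simp only [pr, run, PMF.toOuterMeasure_bind_apply, tick_zero]; simp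
    | succ q =>
      simp only [bad]
      split_ifs with hv
      · exact (pr_le_one _ _ _ _).trans (le_add_left le_self_add)
      · simp only [pr, run, PMF.toOuterMeasure_bind_apply, tick_succ, zero_add, tsum_randNbr,
          (h v hv).1]
        split_ifs with hd h1
        · simp at h1
        · simpa [pr] using ih none q
        · rw [← mul_add, ← sum_add_distrib]
          refine mul_le_mul_right ?_ _
          refine (sum_swap_le (s0 := G0.neighborFinset v) (M := {w | (v, w) ∈ M}) (h v hv).1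
            (fun w hw hM => ?_) (fun w => pr_le_one G (k (some w)) A q)
            (fun w => ih (some w) q)).trans (le_of_eq (sum_congr rfl fun w _ => ?_))
          · rw [SimpleGraph.mem_neighborFinset] at hw ⊢
            exact (h v hv).2 w hw hM
          · simp only [pr, Option.some.injEq, exists_eq_left', Set.mem_ofPred_eq]
            ring
  | coin p k ih =>
    intro q
    simp only [pr, run, PMF.toOuterMeasure_bind_apply, bad]
    rw [← ENNReal.tsum_add]
    exact ENNReal.tsum_le_tsum fun i => by rw [← mul_add]; exact mul_le_mul_right (ih i q) _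

lemma sum_tsum_le {β ι : Type} [Fintype ι] (p : PMF β) (f : ι → β → ℝ≥0∞) {c : ℝ≥0∞}
    (h : ∀ x, ∑ j, f j x ≤ c) : ∑ j, ∑' x, p x * f j x ≤ c := by
  rw [← Summable.tsum_finsetSum fun _ _ => ENNReal.summable]
  calc ∑' x, ∑ j, p x * f j x ≤ ∑' x, p x * c :=
        ENNReal.tsum_le_tsum fun x => by rw [← mul_sum]; exact mul_le_mul_right (h x) _
    _ = c := by rw [ENNReal.tsum_mul_right, p.tsum_coe, one_mul]

lemma sum_ind_le {ι : Type} [Fintype ι] (P : ι → Prop) {_ : DecidablePred P}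
    (h : ∀ i j, P i → P j → i = j) :
    ∑ j, (if P j then (1 : ℝ≥0∞) else 0) ≤ 1 := by
  rw [← sum_filter, sum_const, nsmul_eq_mul, mul_one]
  exact_mod_cast card_le_one.2 fun i hi j hj => h i j (mem_filter.1 hi).2 (mem_filter.1 hj).2

lemma sum_bad_le {ι : Type} [Fintype ι] (G : SimpleGraph V) (S : ι → Set V) (M : ι → Set (V × V))
    (hS : ∀ v i j, v ∈ S i → v ∈ S j → i = j) (hM : ∀ e i j, e ∈ M i → e ∈ M j → i = j)
    (t : Alg V α) : ∀ q : ℕ, ∑ j, bad G (S j) (M j) t q ≤ 2 * q := by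
  induction t with
  | ret a => intro q; simp [bad]
  | vertex k ih =>
    intro q
    cases q with
    | zero => simp [bad]
    | succ q =>
      simp only [bad]
      refine (sum_tsum_le _ _ fun v => ih v q).trans ?_
      gcongr; simp
  | degree v k ih =>
    intro q
    cases q with
    | zero => simp [bad]
    | succ q =>
      simp only [bad, sum_add_distrib]
      refine (add_le_add (sum_ind_le _ (hS v)) (ih _ q)).trans ?_
      push_cast
      rw [mul_add, add_comm]
      gcongr; simp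
  | neighbour v k ih =>
    intro q
    cases q with
    | zero => simp [bad]
    | succ q =>
      simp only [bad, sum_add_distrib]
      refine (add_le_add (sum_ind_le _ (hS v)) (sum_tsum_le (c := 1 + 2 * q) _ _ fun o => ?_)).trans
        (le_of_eq ?_)
      · rw [sum_add_distrib]
        refine add_le_add (sum_ind_le _ ?_) (ih o q)
        rintro i j ⟨w, rfl, hi⟩ ⟨w', h, hj⟩
        obtain rfl : w = w' := Option.some.inj h
        exact hM _ i j hi hj
      · push_cast; ring
  | coin p k ih =>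
    intro q
    simp only [bad]
    exact sum_tsum_le _ _ fun i => ih i q

lemma markov (p : PMF (α × ℕ)) (S : Set α) (q : ℕ) :
    p.toOuterMeasure {x | x.1 ∈ S} ≤ p.toOuterMeasure {x | x.1 ∈ S ∧ x.2 ≤ q} +
      (∑' x, p x * (x.2 : ℝ≥0∞)) / (q + 1) := by
  rw [PMF.toOuterMeasure_apply, PMF.toOuterMeasure_apply, div_eq_mul_inv,
    ← ENNReal.tsum_mul_right, ← ENNReal.tsum_add]
  refine ENNReal.tsum_le_tsum fun x => ?_
  by_cases h1 : x.1 ∈ S
  · by_cases h2 : x.2 ≤ q
    · rw [Set.indicator_of_mem (show x ∈ {x : α × ℕ | x.1 ∈ S} from h1),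
        Set.indicator_of_mem (show x ∈ {x : α × ℕ | x.1 ∈ S ∧ x.2 ≤ q} from ⟨h1, h2⟩)]
      exact le_self_add
    · rw [Set.indicator_of_mem (show x ∈ {x : α × ℕ | x.1 ∈ S} from h1)]
      refine le_add_left ?_
      rw [mul_assoc]
      refine le_mul_of_one_le_right' ?_
      rw [← div_eq_mul_inv, ENNReal.le_div_iff_mul_le (by simp) (by simp), one_mul]
      exact_mod_cast not_le.1 h2
  · rw [Set.indicator_of_notMem (show x ∉ {x : α × ℕ | x.1 ∈ S} from h1)]
    exact zero_le

lemma pr_add_le (G : SimpleGraph V) (t : Alg V α) {A B : Set α} (h : Disjoint A B) (q : ℕ) :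
    pr G t A q + pr G t B q ≤ 1 := by
  rw [pr, pr, PMF.toOuterMeasure_apply, PMF.toOuterMeasure_apply, ← ENNReal.tsum_add,
    ← (run G t).tsum_coe]
  refine ENNReal.tsum_le_tsum fun x => ?_
  by_cases h1 : x.1 ∈ A
  · rw [Set.indicator_of_notMem (s := {x : α × ℕ | x.1 ∈ B ∧ x.2 ≤ q})
      (fun h2 => Set.disjoint_left.1 h h1 h2.1), add_zero]
    exact Set.indicator_le_self _ _ _
  · rw [Set.indicator_of_notMem (s := {x : α × ℕ | x.1 ∈ A ∧ x.2 ≤ q}) (fun h2 => h1 h2.1),
      zero_add]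
    exact Set.indicator_le_self _ _ _

theorem adversary {ι : Type} [Fintype ι] (G0 : SimpleGraph V) (GA GB : ι → SimpleGraph V)
    (S : ι → Set V) (M : ι → Set (V × V))
    (hS : ∀ v i j, v ∈ S i → v ∈ S j → i = j) (hM : ∀ e i j, e ∈ M i → e ∈ M j → i = j)
    (hA : ∀ j, Near G0 (GA j) (S j) (M j)) (hB : ∀ j, Near G0 (GB j) (S j) (M j)) {ε : ℝ}
    (hd : ∀ j f, IsEstimate (GA j) ε f → ¬ IsEstimate (GB j) ε f) (t : Alg V (ℝ → ℝ))
    (sA : ∀ j, Solves t (GA j) ε) (sB : ∀ j, Solves t (GB j) ε) [Nonempty ι] :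
    ∃ j, (Fintype.card ι : ℝ≥0∞) / 300 ≤ expectedQueries t (GA j) ∨
      (Fintype.card ι : ℝ≥0∞) / 300 ≤ expectedQueries t (GB j) := by
  by_contra hc
  push Not at hc
  set T := Fintype.card ι with hT
  have hT0 : 0 < T := Fintype.card_pos
  have hq : (T : ℝ≥0∞) / 300 / ((T / 25 : ℕ) + 1) ≤ 1 / 12 := by
    rw [ENNReal.div_le_iff (by simp) (by simp), ENNReal.div_le_iff (by simp) (by simp)]
    have : T ≤ (T / 25 + 1) * 25 := by omega
    calc (T : ℝ≥0∞) ≤ ((T / 25 : ℕ) + 1) * 25 := by exact_mod_cast this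
      _ = 1 / 12 * ((T / 25 : ℕ) + 1) * (12 * 25) := by
        rw [one_div, mul_comm (12 : ℝ≥0∞)⁻¹, mul_assoc, ← mul_assoc _ 12,
          ENNReal.inv_mul_cancel (by simp) (by simp), one_mul]
      _ = _ := by norm_num
  have key : ∀ (G : SimpleGraph V) j, Near G0 G (S j) (M j) → Solves t G ε →
      expectedQueries t G < (T : ℝ≥0∞) / 300 →
      2 / 3 ≤ pr G0 t {f | IsEstimate G ε f} (T / 25) + bad G0 (S j) (M j) t (T / 25) + 1 / 12 := by
    intro G j h1 h2 h3
    refine h2.trans ((markov _ {f | IsEstimate G ε f} (T / 25)).trans (add_le_add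
      (pr_le_pr_add_bad h1 _ t _) (le_trans ?_ hq)))
    exact ENNReal.div_le_div_right h3.le _
  have hb : ∀ j, (1 : ℝ≥0∞) ≤ 12 * bad G0 (S j) (M j) t (T / 25) := by
    intro j
    have h1 := key _ j (hA j) (sA j) (hc j).1
    have h2 := key _ j (hB j) (sB j) (hc j).2
    have h3 := pr_add_le G0 t (A := {f | IsEstimate (GA j) ε f}) (B := {f | IsEstimate (GB j) ε f})
      (Set.disjoint_left.2 fun f => hd j f) (T / 25)
    generalize bad G0 (S j) (M j) t (T / 25) = b at *
    generalize pr G0 t {f | IsEstimate (GA j) ε f} (T / 25) = x at *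
    generalize pr G0 t {f | IsEstimate (GB j) ε f} (T / 25) = y at *
    rcases eq_or_ne b ⊤ with rfl | hb
    · simp
    lift b to NNReal using hb
    lift x to NNReal using ne_top_of_le_ne_top ENNReal.one_ne_top (le_self_add.trans h3)
    lift y to NNReal using ne_top_of_le_ne_top ENNReal.one_ne_top (le_add_self.trans h3)
    have e1 : (2 / 3 : ℝ≥0∞) = ((2 / 3 : NNReal) : ℝ≥0∞) := by
      rw [ENNReal.coe_div (by simp)]; simp
    have e2 : (1 / 12 : ℝ≥0∞) = ((1 / 12 : NNReal) : ℝ≥0∞) := by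
      rw [ENNReal.coe_div (by simp)]; simp
    rw [e1, e2] at h1 h2
    norm_cast at h1 h2 h3 ⊢
    rw [← NNReal.coe_le_coe] at h1 h2 h3 ⊢
    push_cast at h1 h2 h3 ⊢
    linarith
  have h1 := sum_le_sum fun j (_ : j ∈ univ) => hb j
  rw [← mul_sum, sum_const, card_univ, nsmul_eq_mul, mul_one] at h1
  have h2 := h1.trans (mul_le_mul_right (sum_bad_le G0 S M hS hM t (T / 25)) _)
  have h3 : T ≤ 12 * (2 * (T / 25)) := by exact_mod_cast h2
  omega

end Pool.Agent.MP_16e32a_lc

end
end MrgPart1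

-- marker of a merged file
example : 731051 + 131211 = 731051 + 131211 := rfl
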