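import Pool.Agent.MP_16e32a_lc.Adversary

/-! Expectations for coin-free algorithms, sequencing, repetition and truncation. -/

set_option linter.unusedSectionVars false

open scoped ENNReal Classical
open Finset

noncomputable section

namespace Pool.Agent.MP_16e32a_lc

section avg

variable {β : Type}

def avg (s : Finset β) (g : β → ℝ) : ℝ := (∑ x ∈ s, g x) / s.card

lemma avg_mono (s : Finset β) {g g' : β → ℝ} (h : ∀ x ∈ s, g x ≤ g' x) : avg s g ≤ avg s g' :=
  div_le_div_of_nonneg_right (sum_le_sum h) (Nat.cast_nonneg _)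

lemma avg_add (s : Finset β) (g g' : β → ℝ) :
    avg s (fun x => g x + g' x) = avg s g + avg s g' := by
  simp only [avg, sum_add_distrib, add_div]

lemma avg_mul (s : Finset β) (c : ℝ) (g : β → ℝ) : avg s (fun x => c * g x) = c * avg s g := by
  simp only [avg, ← mul_sum, mul_div_assoc]

lemma avg_const {s : Finset β} (hs : s.Nonempty) (c : ℝ) : avg s (fun _ => c) = c := by
  have : (s.card : ℝ) ≠ 0 := by exact_mod_cast hs.card_pos.ne'
  simp only [avg, sum_const, nsmul_eq_mul]
  field_simp

lemma avg_nonneg (s : Finset β) {g : β → ℝ} (h : ∀ x ∈ s, 0 ≤ g x) : 0 ≤ avg s g :=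
  div_nonneg (sum_nonneg h) (Nat.cast_nonneg _)

lemma avg_eq_zero {s : Finset β} (hs : s.Nonempty) {g : β → ℝ} (h : ∀ x ∈ s, 0 ≤ g x)
    (h0 : avg s g ≤ 0) : ∀ x ∈ s, g x ≤ 0 := by
  have : (0 : ℝ) < s.card := by exact_mod_cast hs.card_pos
  rw [avg, div_le_iff₀ this, zero_mul] at h0
  intro x hx
  exact (single_le_sum h hx).trans h0

lemma ofReal_avg {s : Finset β} (hs : s.Nonempty) {g : β → ℝ} (h : ∀ x ∈ s, 0 ≤ g x) :
    ENNReal.ofReal (avg s g) = (s.card : ℝ≥0∞)⁻¹ * ∑ x ∈ s, ENNReal.ofReal (g x) := by
  have : (0 : ℝ) < s.card := by exact_mod_cast hs.card_pos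
  rw [avg, ENNReal.ofReal_div_of_pos this, ENNReal.ofReal_sum_of_nonneg h, div_eq_mul_inv,
    mul_comm, ENNReal.ofReal_natCast]

end avg

variable {V α β : Type} [Fintype V] [Nonempty V] (G : SimpleGraph V)

def nbrs (v : V) : Finset (Option V) :=
  if G.degree v = 0 then {none} else (G.neighborFinset v).map Function.Embedding.some

lemma nbrs_nonempty (v : V) : (nbrs G v).Nonempty := by
  unfold nbrs
  split_ifs with h
  · simp
  · exact Finset.map_nonempty.2 (card_pos.1 (Nat.pos_of_ne_zero h))

def ex : Alg V α → (α → ℝ) → ℝ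
  | .ret a, f => f a
  | .vertex k, f => avg univ fun v => ex (k v) f
  | .degree v k, f => ex (k (G.degree v)) f
  | .neighbour v k, f => avg (nbrs G v) fun o => ex (k o) f
  | .coin _ k, f => ex (k 0) f

def ecost : Alg V α → ℝ
  | .ret _ => 0
  | .vertex k => 1 + avg univ fun v => ecost (k v)
  | .degree v k => 1 + ecost (k (G.degree v))
  | .neighbour v k => 1 + avg (nbrs G v) fun o => ecost (k o)
  | .coin _ k => ecost (k 0)

def NoCoin : Alg V α → Prop
  | .ret _ => True
  | .vertex k => ∀ v, NoCoin (k v)
  | .degree _ k => ∀ d, NoCoin (k d)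
  | .neighbour _ k => ∀ o, NoCoin (k o)
  | .coin _ _ => False

def Alg.bind : Alg V α → (α → Alg V β) → Alg V β
  | .ret a, c => c a
  | .vertex k, c => .vertex fun v => (k v).bind c
  | .degree v k, c => .degree v fun d => (k d).bind c
  | .neighbour v k, c => .neighbour v fun o => (k o).bind c
  | .coin p k, c => .coin p fun i => (k i).bind c

def trunc (a0 : α) : Alg V α → ℕ → Alg V α
  | .ret a, _ => .ret a
  | .vertex _, 0 => .ret a0
  | .vertex k, q + 1 => .vertex fun v => trunc a0 (k v) q
  | .degree _ _, 0 => .ret a0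
  | .degree v k, q + 1 => .degree v fun d => trunc a0 (k d) q
  | .neighbour _ _, 0 => .ret a0
  | .neighbour v k, q + 1 => .neighbour v fun o => trunc a0 (k o) q
  | .coin p k, q => .coin p fun i => trunc a0 (k i) q

lemma ex_mono (t : Alg V α) {f g : α → ℝ} (h : ∀ a, f a ≤ g a) : ex G t f ≤ ex G t g := by
  induction t with
  | ret a => exact h a
  | vertex k ih => exact avg_mono _ fun v _ => ih v
  | degree v k ih => exact ih _
  | neighbour v k ih => exact avg_mono _ fun o _ => ih o
  | coin p k ih => exact ih 0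

lemma ex_add (t : Alg V α) (f g : α → ℝ) :
    ex G t (fun a => f a + g a) = ex G t f + ex G t g := by
  induction t with
  | ret a => rfl
  | vertex k ih => simp only [ex, ih, avg_add]
  | degree v k ih => exact ih _
  | neighbour v k ih => simp only [ex, ih, avg_add]
  | coin p k ih => exact ih 0

lemma ex_mul (t : Alg V α) (c : ℝ) (f : α → ℝ) : ex G t (fun a => c * f a) = c * ex G t f := by
  induction t with
  | ret a => rfl
  | vertex k ih => simp only [ex, ih, avg_mul]
  | degree v k ih => exact ih _
  | neighbour v k ih => simp only [ex, ih, avg_mul]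
  | coin p k ih => exact ih 0

lemma ex_const (t : Alg V α) (c : ℝ) : ex G t (fun _ => c) = c := by
  induction t with
  | ret a => rfl
  | vertex k ih => simp only [ex, ih, avg_const univ_nonempty]
  | degree v k ih => exact ih _
  | neighbour v k ih => simp only [ex, ih, avg_const (nbrs_nonempty G v)]
  | coin p k ih => exact ih 0

lemma ex_nonneg (t : Alg V α) {f : α → ℝ} (h : ∀ a, 0 ≤ f a) : 0 ≤ ex G t f :=
  (ex_const G t 0).ge.trans (ex_mono G t h)

lemma ex_sum {ι : Type} (s : Finset ι) (t : Alg V α) (f : ι → α → ℝ) :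
    ex G t (fun a => ∑ i ∈ s, f i a) = ∑ i ∈ s, ex G t (f i) := by
  induction s using Finset.induction_on with
  | empty => simpa using ex_const G t 0
  | insert i s hi ih => simp only [sum_insert hi, ex_add, ih]

lemma ex_zero (t : Alg V α) {f g : α → ℝ} (hf : ∀ a, 0 ≤ f a) (h : ∀ a, f a ≤ 0 → g a ≤ 0)
    (h0 : ex G t f ≤ 0) : ex G t g ≤ 0 := by
  induction t with
  | ret a => exact h a h0
  | vertex k ih =>
    exact (avg_mono _ fun v hv => ih v (avg_eq_zero univ_nonempty
      (fun v _ => ex_nonneg G _ hf) h0 v hv)).trans (avg_const univ_nonempty 0).le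
  | degree v k ih => exact ih _ h0
  | neighbour v k ih =>
    exact (avg_mono _ fun o ho => ih o (avg_eq_zero (nbrs_nonempty G v)
      (fun v _ => ex_nonneg G _ hf) h0 o ho)).trans (avg_const (nbrs_nonempty G v) 0).le
  | coin p k ih => exact ih 0 h0

lemma ex_bind (t : Alg V α) (c : α → Alg V β) (f : β → ℝ) :
    ex G (t.bind c) f = ex G t fun a => ex G (c a) f := by
  induction t with
  | ret a => rfl
  | vertex k ih => simp only [Alg.bind, ex, ih]
  | degree v k ih => exact ih _
  | neighbour v k ih => simp only [Alg.bind, ex, ih]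
  | coin p k ih => exact ih 0

lemma ecost_bind (t : Alg V α) (c : α → Alg V β) :
    ecost G (t.bind c) = ecost G t + ex G t fun a => ecost G (c a) := by
  induction t with
  | ret a => simp [Alg.bind, ecost, ex]
  | vertex k ih => simp only [Alg.bind, ex, ecost, ih, avg_add, add_assoc]
  | degree v k ih => simp only [Alg.bind, ex, ecost, ih, add_assoc]
  | neighbour v k ih => simp only [Alg.bind, ex, ecost, ih, avg_add, add_assoc]
  | coin p k ih => exact ih 0

lemma ecost_nonneg (t : Alg V α) : 0 ≤ ecost G t := by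
  induction t with
  | ret a => exact le_rfl
  | vertex k ih => exact add_nonneg zero_le_one (avg_nonneg _ fun v _ => ih v)
  | degree v k ih => exact add_nonneg zero_le_one (ih _)
  | neighbour v k ih => exact add_nonneg zero_le_one (avg_nonneg _ fun v _ => ih v)
  | coin p k ih => exact ih 0

lemma NoCoin.bind {t : Alg V α} {c : α → Alg V β} (ht : NoCoin t) (hc : ∀ a, NoCoin (c a)) :
    NoCoin (t.bind c) := by
  induction t with
  | ret a => exact hc a
  | vertex k ih => exact fun v => ih v (ht v)
  | degree v k ih => exact fun v => ih v (ht v)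
  | neighbour v k ih => exact fun v => ih v (ht v)
  | coin p k ih => exact ht

lemma NoCoin.trunc (a0 : α) {t : Alg V α} (ht : NoCoin t) (q : ℕ) : NoCoin (trunc a0 t q) := by
  induction t generalizing q with
  | ret a => trivial
  | vertex k ih => cases q with
    | zero => trivial
    | succ q => exact fun v => ih v (ht v) q
  | degree v k ih => cases q with
    | zero => trivial
    | succ q => exact fun v => ih v (ht v) q
  | neighbour v k ih => cases q with
    | zero => trivial
    | succ q => exact fun v => ih v (ht v) q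
  | coin p k ih => exact ht

lemma mem_support_tick {p : PMF (α × ℕ)} {q : ℕ} (h : ∀ x ∈ p.support, x.2 ≤ q) :
    ∀ x ∈ (tick p).support, x.2 ≤ q + 1 := by
  intro x hx
  obtain ⟨y, hy, rfl⟩ := (PMF.mem_support_map_iff _ _ _).1 hx
  exact Nat.succ_le_succ (h y hy)

lemma trunc_support (a0 : α) (t : Alg V α) (q : ℕ) :
    ∀ x ∈ (run G (trunc a0 t q)).support, x.2 ≤ q := by
  induction t generalizing q with
  | ret a => simp [trunc, run]
  | vertex k ih => cases q with
    | zero => simp [trunc, run]
    | succ q =>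
      intro x hx
      obtain ⟨v, -, hv⟩ := (PMF.mem_support_bind_iff _ _ _).1 hx
      exact mem_support_tick (ih v q) x hv
  | degree v k ih => cases q with
    | zero => simp [trunc, run]
    | succ q => exact mem_support_tick (ih _ q)
  | neighbour v k ih => cases q with
    | zero => simp [trunc, run]
    | succ q =>
      intro x hx
      obtain ⟨v, -, hv⟩ := (PMF.mem_support_bind_iff _ _ _).1 hx
      exact mem_support_tick (ih v q) x hv
  | coin p k ih =>
    intro x hx
    obtain ⟨v, -, hv⟩ := (PMF.mem_support_bind_iff _ _ _).1 hx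
    exact ih v q x hv

lemma ex_trunc (a0 : α) (t : Alg V α) {f : α → ℝ} (h0 : ∀ a, 0 ≤ f a) (h1 : ∀ a, f a ≤ 1) (q : ℕ) :
    (q + 1) * ex G t f ≤ (q + 1) * ex G (trunc a0 t q) f + ecost G t := by
  have hle : ∀ t : Alg V α, ex G t f ≤ 1 := fun t => (ex_mono G t h1).trans (ex_const G t 1).le
  have hge : ∀ t : Alg V α, 0 ≤ ex G t f := fun t => ex_nonneg G t h0
  have step : ∀ (q : ℕ) (t t' : Alg V α) (c : ℝ), (q + 1) * ex G t f ≤ (q + 1) * ex G t' f + c →
      ((q + 1 : ℕ) + 1) * ex G t f ≤ 1 + (((q + 1 : ℕ) + 1) * ex G t' f + c) := by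
    intro q t t' c h
    push_cast
    linarith [hle t, hge t']
  induction t generalizing q with
  | ret a => simp [trunc, ecost]
  | vertex k ih => cases q with
    | zero =>
      have := avg_nonneg (univ : Finset V) fun v _ => ecost_nonneg G (k v)
      have := hle (.vertex k)
      simp only [trunc, ecost, ex, Nat.cast_zero, zero_add, one_mul] at *
      linarith [h0 a0]
    | succ q =>
      simp only [trunc, ecost, ex]
      have := avg_mono univ fun v _ => step q _ _ _ (ih v q)
      simp only [avg_add, avg_mul, avg_const (univ_nonempty (α := V))] at this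
      linarith
  | degree v k ih => cases q with
    | zero =>
      have := ecost_nonneg G (k (G.degree v))
      have := hle (.degree v k)
      simp only [trunc, ecost, ex, Nat.cast_zero, zero_add, one_mul] at *
      linarith [h0 a0]
    | succ q =>
      simp only [trunc, ecost, ex]
      rw [add_left_comm]
      exact step q _ _ _ (ih _ q)
  | neighbour v k ih => cases q with
    | zero =>
      have := avg_nonneg (nbrs G v) fun v _ => ecost_nonneg G (k v)
      have := hle (.neighbour v k)
      simp only [trunc, ecost, ex, Nat.cast_zero, zero_add, one_mul] at *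
      linarith [h0 a0]
    | succ q =>
      simp only [trunc, ecost, ex]
      have := avg_mono (nbrs G v) fun v _ => step q _ _ _ (ih v q)
      simp only [avg_add, avg_mul, avg_const (nbrs_nonempty G v)] at this
      linarith
  | coin p k ih => exact ih 0 q

lemma run_eq_ex {t : Alg V α} (ht : NoCoin t) (S : Set α) :
    (run G t).toOuterMeasure {x | x.1 ∈ S} =
      ENNReal.ofReal (ex G t fun a => if a ∈ S then 1 else 0) := by
  have hn : ∀ t : Alg V α, 0 ≤ ex G t fun a => if a ∈ S then 1 else 0 := fun t =>
    ex_nonneg G t fun a => by split_ifs <;> simp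
  induction t with
  | ret a =>
    simp only [run, ex, PMF.toOuterMeasure_pure_apply, Set.mem_ofPred_eq]
    split_ifs <;> simp
  | vertex k ih =>
    simp only [run, ex, PMF.toOuterMeasure_bind_apply, tick_apply, Set.mem_ofPred_eq]
    rw [ofReal_avg univ_nonempty fun v _ => hn _, tsum_fintype, mul_sum]
    exact sum_congr rfl fun v _ => by rw [ih v (ht v), PMF.uniformOfFintype_apply, card_univ]
  | degree v k ih =>
    simp only [run, ex, tick_apply, Set.mem_ofPred_eq]
    exact ih _ (ht _)
  | neighbour v k ih =>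
    simp only [run, ex, PMF.toOuterMeasure_bind_apply, tick_apply, Set.mem_ofPred_eq, tsum_randNbr]
    rw [ofReal_avg (nbrs_nonempty G v) fun v _ => hn _, nbrs]
    split_ifs with h
    · simp [ih _ (ht _)]
    · simp only [card_map, sum_map, Function.Embedding.some_apply, ih _ (ht _)]
      rfl
  | coin p k ih => exact ht.elim

/-- the sum of `r` independent runs -/
def rep (b : Alg V (ℕ → ℝ)) : ℕ → Alg V (ℕ → ℝ)
  | 0 => .ret 0
  | r + 1 => b.bind fun y => (rep b r).bind fun s => .ret (y + s)

lemma NoCoin.rep {b : Alg V (ℕ → ℝ)} (hb : NoCoin b) : ∀ r, NoCoin (rep b r)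
  | 0 => trivial
  | r + 1 => hb.bind fun _ => (NoCoin.rep hb r).bind fun _ => trivial

lemma ecost_rep (b : Alg V (ℕ → ℝ)) : ∀ r : ℕ, ecost G (rep b r) = r * ecost G b
  | 0 => by simp [rep, ecost]
  | r + 1 => by
    simp only [rep, ecost_bind, ecost, ex_const, ecost_rep b r]
    push_cast; ring

lemma ex_rep (b : Alg V (ℕ → ℝ)) (d : ℕ) :
    ∀ r : ℕ, ex G (rep b r) (fun s => s d) = r * ex G b fun y => y d
  | 0 => by simp [rep, ex]
  | r + 1 => by
    simp only [rep, ex_bind, ex, Pi.add_apply, ex_add, ex_const, ex_rep b d r]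
    push_cast; ring

lemma ex_rep_sq (b : Alg V (ℕ → ℝ)) (d : ℕ) : ∀ r : ℕ, ex G (rep b r) (fun s => s d ^ 2) =
    r * (ex G b fun y => y d ^ 2) + r * (r - 1) * (ex G b fun y => y d) ^ 2
  | 0 => by simp [rep, ex]
  | r + 1 => by
    simp only [rep, ex_bind, ex, Pi.add_apply, add_sq, ex_add, ex_const, ex_mul, ex_rep_sq b d r,
      ex_rep]
    have : ∀ c : ℝ, (ex G b fun a => 2 * a d * c) = 2 * c * ex G b fun a => a d := fun c => by
      rw [← ex_mul]; congr 1; funext a; ring
    rw [this]
    push_cast; ring

end Pool.Agent.MP_16e32a_lc
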