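import Mathlib.Topology.Sheaves.Presheaf
import Mathlib.Data.Int.Star
import Mathlib.Algebra.Order.Ring.Star
import Mathlib.Algebra.Order.Star.Real
import Mathlib.Algebra.Ring.IsFormallyReal
import Mathlib.Combinatorics.SimpleGraph.Sum
import Mathlib.RingTheory.PiTensorProduct
import Pool.Agent.MP_16e32a_lc.Expect
import Pool.Agent.MP_16e32a_lc.Adversary

-- ======== part 0: formerly Pool.Agent.MP_16e32a_lc.Upper
section MrgPart0

/-! The upper bound. -/

set_option linter.unusedSectionVars false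

open scoped ENNReal Classical
open Finset

noncomputable section

namespace Pool.Agent.MP_16e32a_lc

variable {V : Type} [Fintype V] [Nonempty V] (G : SimpleGraph V)

def step (u : V) : Alg V (ℕ → ℝ) := .neighbour u fun o => match o with
  | none => .ret 0
  | some w => .degree w fun D => .ret fun d => if d ≤ D then 1 / (D : ℝ) else 0

def tt (θ : ℝ) (D : ℕ) : ℕ := ⌈(D : ℝ) / θ⌉₊

def blk (θ : ℝ) (τ : ℕ) : Alg V (ℕ → ℝ) := .vertex fun u => .degree u fun D =>
  (rep (step u) (tt θ D)).bind fun S => .ret fun d =>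
    if d ≤ τ then (if d ≤ D then 1 else 0) else (D : ℝ) / tt θ D * S d

def wt (d : ℕ) (u : V) : ℝ :=
  ∑ w ∈ G.neighborFinset u, if d ≤ G.degree w then 1 / (G.degree w : ℝ) else 0

lemma noCoin_step (u : V) : NoCoin (step u) := fun o => by
  cases o with
  | none => trivial
  | some w => exact fun _ => trivial

lemma noCoin_blk (θ : ℝ) (τ : ℕ) : NoCoin (blk (V := V) θ τ) := fun u _ =>
  ((noCoin_step u).rep _).bind fun _ => trivial

lemma avg_nbrs (u : V) (g : Option V → ℝ) (h0 : g none = 0) :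
    avg (nbrs G u) g = (∑ w ∈ G.neighborFinset u, g (some w)) / G.degree u := by
  unfold nbrs
  split_ifs with h
  · simp [avg, h0, h]
  · simp [avg]

lemma wt_nonneg (d : ℕ) (u : V) : 0 ≤ wt G d u :=
  sum_nonneg fun w _ => by split_ifs <;> positivity

lemma ex_step (u : V) (d : ℕ) : ex G (step u) (fun y => y d) = wt G d u / G.degree u :=
  avg_nbrs G u _ rfl

lemma ex_step_sq (u : V) {d : ℕ} (hd : 1 ≤ d) :
    ex G (step u) (fun y => y d ^ 2) ≤ wt G d u / G.degree u / d := by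
  rw [← ex_step, div_eq_inv_mul, ← ex_mul]
  refine avg_mono _ fun o _ => ?_
  cases o with
  | none => simp [ex]
  | some w =>
    simp only [ex]
    split_ifs with h
    · rw [sq, one_div]
      have : (0 : ℝ) < d := by exact_mod_cast hd
      gcongr
    · simp

lemma sum_wt {d : ℕ} (hd : 1 ≤ d) : ∑ u, wt G d u = prof G d := by
  simp only [wt, SimpleGraph.neighborFinset_eq_filter, sum_filter]
  rw [sum_comm, prof_eq_sum]
  push_cast
  refine sum_congr rfl fun w _ => ?_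
  rw [← sum_filter, sum_const]
  have : (univ.filter fun u => G.Adj u w).card = G.degree w := by
    rw [← SimpleGraph.card_neighborFinset_eq_degree, SimpleGraph.neighborFinset_eq_filter]
    simp only [G.adj_comm]
  rw [this]
  split_ifs with h
  · have : (G.degree w : ℝ) ≠ 0 := by exact_mod_cast (show G.degree w ≠ 0 by omega)
    simp [this]
  · simp

lemma wt_le {d : ℕ} (hd : 1 ≤ d) (u : V) : wt G d u ≤ prof G d / d := by
  rw [prof_eq_sum]
  push_cast
  rw [sum_div]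
  refine (sum_le_sum_of_subset_of_nonneg (subset_univ _) fun w _ _ => by
    split_ifs <;> positivity).trans (sum_le_sum fun w _ => ?_)
  split_ifs with h
  · have : (0 : ℝ) < d := by exact_mod_cast hd
    gcongr
  · simp

lemma wt_of_zero {u : V} (h : G.degree u = 0) (d : ℕ) : wt G d u = 0 := by
  have : G.neighborFinset u = ∅ := card_eq_zero.1 h
  simp [wt, this]

lemma tt_pos {θ : ℝ} (hθ : 0 < θ) {D : ℕ} (hD : D ≠ 0) : 0 < (tt θ D : ℝ) := by
  have : (0 : ℝ) < D := by exact_mod_cast Nat.pos_of_ne_zero hD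
  exact_mod_cast Nat.ceil_pos.2 (div_pos this hθ)

lemma ex_blk {θ : ℝ} (hθ : 0 < θ) (τ : ℕ) {d : ℕ} (hd : 1 ≤ d) :
    ex G (blk θ τ) (fun y => y d) = prof G d / Fintype.card V := by
  simp only [blk, ex, ex_bind]
  by_cases h : d ≤ τ
  · simp only [if_pos h, ex_const, avg, card_univ]
    rw [prof_eq_sum]; push_cast; rfl
  · simp only [if_neg h, ex_mul, ex_rep, ex_step, avg, card_univ]
    rw [← sum_wt G hd]
    congr 1
    refine sum_congr rfl fun u _ => ?_
    by_cases h0 : G.degree u = 0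
    · simp [wt_of_zero G h0]
    · have h1 := tt_pos hθ h0
      have h2 : (G.degree u : ℝ) ≠ 0 := by exact_mod_cast h0
      field_simp

lemma ex_blk_sq {θ a μ : ℝ} (ha : 0 < a) (hμ : 0 < μ) (hθ : θ = μ / a) (τ : ℕ) {d : ℕ} (hd : 1 ≤ d)
    (P1 : d ≤ τ → 1 ≤ prof G d → a ≤ prof G d) (P2 : τ < d → 1 ≤ prof G d → a ≤ d)
    (P3 : 1 ≤ prof G d → μ ≤ d * prof G d) :
    ex G (blk θ τ) (fun y => y d ^ 2) ≤ 2 * (prof G d : ℝ) ^ 2 / (Fintype.card V * a) := by
  have hθ0 : 0 < θ := hθ ▸ div_pos hμ ha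
  have hn : (0 : ℝ) < Fintype.card V := by exact_mod_cast Fintype.card_pos
  have hd0 : (0 : ℝ) < d := by exact_mod_cast hd
  simp only [blk, ex, ex_bind]
  by_cases h : d ≤ τ
  · simp only [if_pos h, ex_const, avg, card_univ, ite_pow, one_pow, ne_eq, OfNat.ofNat_ne_zero,
      not_false_eq_true, zero_pow]
    have e : (∑ x, if d ≤ G.degree x then (1 : ℝ) else 0) = prof G d := by
      rw [prof_eq_sum]; push_cast; rfl
    rw [e, div_le_div_iff₀ hn (mul_pos hn ha)]
    rcases Nat.eq_zero_or_pos (prof G d) with h0 | h0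
    · simp [h0]
    · have h1 := P1 h h0
      have h2 : (0 : ℝ) ≤ prof G d := Nat.cast_nonneg _
      nlinarith [mul_le_mul_of_nonneg_left h1 (mul_nonneg h2 hn.le), mul_nonneg (mul_nonneg h2 h2) hn.le]
  · simp only [if_neg h, mul_pow, ex_mul, ex_rep_sq, ex_step]
    have h1 : ∀ u, ((G.degree u : ℝ) / tt θ (G.degree u)) ^ 2 *
        ((tt θ (G.degree u) : ℝ) * (ex G (step u) fun y => y d ^ 2) +
          tt θ (G.degree u) * (tt θ (G.degree u) - 1) * (wt G d u / G.degree u) ^ 2) ≤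
        (θ + prof G d) / d * wt G d u := by
      intro u
      by_cases h0 : G.degree u = 0
      · simp [h0, wt_of_zero G h0]
      have t0 := tt_pos hθ0 h0
      have D0 : (0 : ℝ) < G.degree u := by exact_mod_cast Nat.pos_of_ne_zero h0
      have ht : (G.degree u : ℝ) / tt θ (G.degree u) ≤ θ := by
        rw [div_le_comm₀ t0 hθ0]
        exact Nat.le_ceil _
      have hw := wt_nonneg G d u
      have hw' := wt_le G hd u
      have hs := ex_step_sq G u hd
      generalize (tt θ (G.degree u) : ℝ) = t at *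
      generalize (G.degree u : ℝ) = D at *
      generalize wt G d u = w at *
      generalize (ex G (step u) fun y => y d ^ 2) = s at *
      calc (D / t) ^ 2 * (t * s + t * (t - 1) * (w / D) ^ 2)
          ≤ (D / t) ^ 2 * (t * (w / D / d) + t * t * (w / D) ^ 2) := by
            gcongr
            linarith
        _ = D / t * (w / d) + w * w := by field_simp
        _ ≤ θ * (w / d) + prof G d / d * w := by gcongr
        _ = _ := by ring
    refine (avg_mono _ fun u _ => h1 u).trans ?_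
    rw [avg_mul, avg, sum_wt G hd, card_univ]
    rcases Nat.eq_zero_or_pos (prof G d) with h0 | h0
    · simp [h0]
    · have h2 := P2 (not_le.1 h) h0
      have h3 := P3 h0
      have h4 : (0 : ℝ) < prof G d := by exact_mod_cast h0
      generalize (prof G d : ℝ) = N at *
      have e1 : θ / d ≤ N / a := by
        rw [hθ, div_div, div_le_div_iff₀ (mul_pos ha hd0) ha]
        nlinarith
      have e2 : N / d ≤ N / a := by gcongr
      calc (θ + N) / d * (N / Fintype.card V) ≤ (N / a + N / a) * (N / Fintype.card V) := by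
            rw [add_div]; gcongr
        _ = _ := by field_simp; ring

lemma ecost_step (u : V) : ecost G (step u) ≤ 2 := by
  have : avg (nbrs G u) (fun o => ecost G (match o with
      | none => .ret 0
      | some w => .degree w fun D => .ret fun d => if d ≤ D then 1 / (D : ℝ) else 0 :
        Alg V (ℕ → ℝ))) ≤ 1 := by
    refine (avg_mono _ fun o _ => ?_).trans (avg_const (nbrs_nonempty G u) 1).le
    cases o <;> simp [ecost]
  simp only [step, ecost]
  linarith

lemma ecost_blk {θ : ℝ} (hθ : 0 < θ) (τ : ℕ) :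
    ecost G (blk θ τ) ≤ 4 + 4 * G.edgeFinset.card / (Fintype.card V * θ) := by
  have hn : (0 : ℝ) < Fintype.card V := by exact_mod_cast Fintype.card_pos
  simp only [blk, ecost, ecost_bind, ex_const, ecost_rep, add_zero]
  have h1 : ∀ u, 1 + (tt θ (G.degree u) : ℝ) * ecost G (step u) ≤ 3 + 2 / θ * G.degree u := by
    intro u
    have h2 : (tt θ (G.degree u) : ℝ) ≤ G.degree u / θ + 1 := (Nat.ceil_lt_add_one (by positivity)).le
    have h3 := mul_le_mul h2 (ecost_step G u) (ecost_nonneg G _) (by positivity)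
    have : (G.degree u / θ + 1) * 2 = 2 + 2 / θ * G.degree u := by ring
    linarith
  have h2 := avg_mono univ fun u _ => h1 u
  rw [avg_add _ (fun _ => 3), avg_const univ_nonempty, avg_mul,
    show avg univ (fun u => (G.degree u : ℝ)) = (∑ u, (G.degree u : ℝ)) / Fintype.card V from rfl]
    at h2
  have h3 : ∑ u, (G.degree u : ℝ) = 2 * G.edgeFinset.card := by exact_mod_cast degsum G
  rw [h3] at h2
  have : 2 / θ * (2 * (G.edgeFinset.card : ℝ) / Fintype.card V) =
      4 * G.edgeFinset.card / (Fintype.card V * θ) := by field_simp; ring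
  linarith

/-- Chebyshev's inequality for one threshold -/
lemma chebyshev (b : Alg V (ℕ → ℝ)) (d : ℕ) {n a N ε : ℝ} {r : ℕ} (hr : 0 < r) (hn : 0 < n)
    (ha : 0 < a) (hε : 0 < ε) (hN : 0 ≤ N) (h1 : ex G b (fun y => y d) = N / n)
    (h2 : ex G b (fun y => y d ^ 2) ≤ 2 * N ^ 2 / (n * a)) :
    ex G (rep b r) (fun s => if |n / r * s d - N| ≤ ε * N then 0 else 1) ≤
      2 * n / (r * a * ε ^ 2) := by
  have hr0 : (0 : ℝ) < r := by exact_mod_cast hr
  have hv : ex G (rep b r) (fun s => (n / r * s d - N) ^ 2) ≤ 2 * n * N ^ 2 / (r * a) := by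
    have e : (fun s : ℕ → ℝ => (n / r * s d - N) ^ 2) =
        fun s => (n / r) ^ 2 * s d ^ 2 + (-(2 * (n / r) * N) * s d + N ^ 2) := by
      funext s; ring
    rw [e, ex_add, ex_add, ex_mul, ex_mul, ex_const, ex_rep, ex_rep_sq, h1]
    calc _ ≤ (n / r) ^ 2 * (r * (2 * N ^ 2 / (n * a)) + r * r * (N / n) ^ 2) +
          (-(2 * (n / r) * N) * (r * (N / n)) + N ^ 2) := by
          gcongr
          linarith
      _ = _ := by field_simp; ring
  rcases hN.eq_or_lt with rfl | hN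
  · refine (ex_zero G _ (f := fun s => (n / r * s d - 0) ^ 2) (fun s => sq_nonneg _)
      (fun s hs => ?_) (by simpa using hv)).trans (by positivity)
    rw [if_pos]
    rw [pow_eq_zero_iff two_ne_zero |>.1 (le_antisymm hs (sq_nonneg _))]
    simp
  · calc _ ≤ ex G (rep b r) (fun s => 1 / (ε * N) ^ 2 * (n / r * s d - N) ^ 2) := by
          refine ex_mono G _ fun s => ?_
          split_ifs with h
          · positivity
          · rw [one_div, ← div_eq_inv_mul, le_div_iff₀ (by positivity), one_mul,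
              ← sq_abs (n / r * s d - N)]
            exact pow_le_pow_left₀ (by positivity) (not_le.1 h).le 2
      _ ≤ 1 / (ε * N) ^ 2 * (2 * n * N ^ 2 / (r * a)) := by rw [ex_mul]; gcongr
      _ = _ := by field_simp

def idx (ε x : ℝ) : ℕ := sInf {i : ℕ | x ≤ (1 + ε) ^ i}

lemma idx_spec {ε : ℝ} (hε : 0 < ε) (x : ℝ) : x ≤ (1 + ε) ^ idx ε x := by
  obtain ⟨i, hi⟩ := pow_unbounded_of_one_lt x (show 1 < 1 + ε by linarith)
  exact Nat.sInf_mem (s := {i : ℕ | x ≤ (1 + ε) ^ i}) ⟨i, hi.le⟩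

lemma idx_mono {ε : ℝ} (hε : 0 < ε) {x y : ℝ} (h : x ≤ y) : idx ε x ≤ idx ε y :=
  Nat.sInf_le (h.trans (idx_spec hε y))

lemma idx_lt {ε x : ℝ} {i : ℕ} (h : idx ε x = i + 1) : (1 + ε) ^ i < x := by
  by_contra hc
  have := Nat.sInf_le (s := {i : ℕ | x ≤ (1 + ε) ^ i}) (not_lt.1 hc)
  unfold idx at h
  omega

lemma idx_le {ε n : ℝ} (hε : 0 < ε) (hε1 : ε < 1) (hn : 1 ≤ n) :
    (idx ε n : ℝ) + 1 ≤ 2 * (1 + Real.log n) / ε := by
  have hl := Real.log_nonneg hn
  have h2 : 2 ≤ 2 / ε := by rw [le_div_iff₀ hε]; linarith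
  rw [mul_add, add_div, mul_one]
  rcases h : idx ε n with _ | i
  · have : 0 ≤ 2 * Real.log n / ε := by positivity
    push_cast; linarith
  · have h1 := Real.log_lt_log (by positivity) (idx_lt h)
    rw [Real.log_pow] at h1
    have h3 : ε / 2 ≤ Real.log (1 + ε) := by
      have := Real.one_sub_inv_le_log_of_pos (show 0 < 1 + ε by linarith)
      refine le_trans ?_ this
      rw [le_sub_comm, inv_le_iff_one_le_mul₀ (by linarith)]
      nlinarith
    have h4 : (i : ℝ) ≤ 2 * Real.log n / ε := by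
      rw [le_div_iff₀ hε]
      nlinarith [mul_le_mul_of_nonneg_left h3 (Nat.cast_nonneg (α := ℝ) i)]
    push_cast; linarith

def out (n ε : ℝ) (r : ℕ) (s : ℕ → ℝ) : ℝ → ℝ := fun x =>
  if x = 0 then n else if n < x then 0 else n / r * s ⌈(1 + ε) ^ idx ε x⌉₊

lemma out_estimate {ε : ℝ} (hε : 0 < ε) (hε1 : ε < 1) {r : ℕ} {s : ℕ → ℝ}
    (h : ∀ i ≤ idx ε (Fintype.card V), |(Fintype.card V : ℝ) / r * s ⌈(1 + ε) ^ i⌉₊ -
      prof G ⌈(1 + ε) ^ i⌉₊| ≤ ε * prof G ⌈(1 + ε) ^ i⌉₊) :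
    IsEstimate G ε (out (Fintype.card V) ε r s) := by
  intro x hx
  unfold out
  split_ifs with h0 h1
  · have : ccdh G 0 = Fintype.card V := by simp [ccdh]
    simp only [h0, mul_zero, this]
    have : (0 : ℝ) ≤ Fintype.card V := Nat.cast_nonneg _
    constructor <;> nlinarith
  · have : ccdh G ((1 + ε) * x) = 0 := by
      rw [ccdh, card_eq_zero, filter_eq_empty_iff]
      intro v _ hv
      have : (G.degree v : ℝ) < Fintype.card V := by exact_mod_cast G.degree_lt_card_verts v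
      nlinarith
    rw [this]
    exact ⟨by simp, by positivity⟩
  · have hx0 : 0 < x := lt_of_le_of_ne hx (Ne.symm h0)
    have h2 := abs_le.1 (h _ (idx_mono hε (not_lt.1 h1)))
    rw [← ccdh_eq] at h2
    have h3 : (ccdh G ((1 + ε) ^ idx ε x) : ℝ) ≤ ccdh G ((1 - ε) * x) := by
      exact_mod_cast ccdh_anti G (le_trans (by nlinarith) (idx_spec hε x))
    have h4 : (ccdh G ((1 + ε) * x) : ℝ) ≤ ccdh G ((1 + ε) ^ idx ε x) := by
      rcases hi : idx ε x with _ | i
      · rw [ccdh_eq, ccdh_eq, pow_zero, Nat.ceil_one]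
        exact_mod_cast prof_anti G (Nat.ceil_pos.2 (by positivity))
      · have := idx_lt hi
        exact_mod_cast ccdh_anti G (by rw [pow_succ']; gcongr)
    constructor <;> nlinarith

def rounds (n a ε : ℝ) : ℕ := ⌈12 * ((idx ε n : ℝ) + 1) * n / (a * ε ^ 2)⌉₊

def budget (n m a μ ε : ℝ) : ℕ := ⌈6 * (rounds n a ε * (4 + 4 * m / (n * (μ / a))))⌉₊

def algo (V : Type) [Fintype V] (m a μ ε : ℝ) (τ : ℕ) : Alg V (ℝ → ℝ) :=
  trunc 0 ((rep (blk (μ / a) τ) (rounds (Fintype.card V) a ε)).bind fun s =>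
    .ret (out (Fintype.card V) ε (rounds (Fintype.card V) a ε) s))
    (budget (Fintype.card V) m a μ ε)

lemma algo_solves {a μ ε : ℝ} (ha : 0 < a) (hμ : 0 < μ) (hε : 0 < ε) (hε1 : ε < 1) (τ : ℕ)
    (P1 : ∀ d, 1 ≤ d → d ≤ τ → 1 ≤ prof G d → a ≤ prof G d)
    (P2 : ∀ d, τ < d → 1 ≤ prof G d → a ≤ d)
    (P3 : ∀ d, 1 ≤ d → 1 ≤ prof G d → μ ≤ d * prof G d) :
    Solves (algo V G.edgeFinset.card a μ ε τ) G ε := by
  have hn : (0 : ℝ) < Fintype.card V := by exact_mod_cast Fintype.card_pos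
  set n : ℝ := (Fintype.card V : ℝ) with hn'
  set r := rounds n a ε with hr'
  set L := idx ε n with hL
  set q := budget n G.edgeFinset.card a μ ε with hq
  have hθ : 0 < μ / a := div_pos hμ ha
  have hr1 : 12 * ((L : ℝ) + 1) * n / (a * ε ^ 2) ≤ r := Nat.le_ceil _
  have hr0 : (0 : ℝ) < r := lt_of_lt_of_le (by positivity) hr1
  have hr : 0 < r := by exact_mod_cast hr0
  set t := (rep (blk (V := V) (μ / a) τ) r).bind fun s => Alg.ret (out n ε r s) with ht
  have hnc : NoCoin t := ((noCoin_blk _ _).rep _).bind fun _ => trivial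
  let f : (ℝ → ℝ) → ℝ := fun g => if g ∈ {g | IsEstimate G ε g} then 1 else 0
  have f0 : ∀ g, 0 ≤ f g := fun g => by simp only [f]; split_ifs <;> simp
  have f1 : ∀ g, f g ≤ 1 := fun g => by simp only [f]; split_ifs <;> simp
  have h1 : 5 / 6 ≤ ex G t f := by
    have e1 : ex G (rep (blk (μ / a) τ) r) (fun s => 1 + -1 * ∑ i ∈ range (L + 1),
        if |n / r * s ⌈(1 + ε) ^ i⌉₊ - prof G ⌈(1 + ε) ^ i⌉₊| ≤ ε * prof G ⌈(1 + ε) ^ i⌉₊
        then 0 else 1) ≤ ex G t f := by
      rw [ht, ex_bind]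
      refine ex_mono G _ fun s => ?_
      show _ ≤ f _
      by_cases hg : ∀ i ≤ L, |n / r * s ⌈(1 + ε) ^ i⌉₊ - prof G ⌈(1 + ε) ^ i⌉₊| ≤
          ε * prof G ⌈(1 + ε) ^ i⌉₊
      · have : f (out n ε r s) = 1 := if_pos (out_estimate G hε hε1 hg)
        rw [this, sum_eq_zero fun i hi => if_pos (hg i (Nat.lt_succ_iff.1 (mem_range.1 hi)))]
        simp
      · push Not at hg
        obtain ⟨i, hi, hi'⟩ := hg
        have := single_le_sum (f := fun i => if |n / r * s ⌈(1 + ε) ^ i⌉₊ - prof G ⌈(1 + ε) ^ i⌉₊| ≤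
          ε * prof G ⌈(1 + ε) ^ i⌉₊ then (0 : ℝ) else 1) (s := range (L + 1))
          (fun i _ => by split_ifs <;> simp) (mem_range.2 (Nat.lt_succ_of_le hi))
        rw [if_neg hi'.not_ge] at this
        linarith [f0 (out n ε r s)]
    rw [ex_add, ex_const, ex_mul, ex_sum] at e1
    have e2 := sum_le_sum fun i (_ : i ∈ range (L + 1)) =>
      have hd : 1 ≤ ⌈(1 + ε) ^ i⌉₊ := Nat.ceil_pos.2 (by positivity)
      chebyshev G (blk (μ / a) τ) ⌈(1 + ε) ^ i⌉₊ hr hn ha hε (Nat.cast_nonneg _)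
        (ex_blk G hθ τ hd) (ex_blk_sq G ha hμ rfl τ hd (P1 _ hd) (P2 _) (P3 _ hd))
    rw [sum_const, card_range, nsmul_eq_mul] at e2
    have e3 : ((L + 1 : ℕ) : ℝ) * (2 * n / (r * a * ε ^ 2)) ≤ 1 / 6 := by
      rw [div_le_iff₀ (by positivity)] at hr1
      rw [← mul_div_assoc, div_le_iff₀ (by positivity)]
      push_cast
      nlinarith
    linarith
  have h2 : 6 * ecost G t ≤ q := by
    refine le_trans ?_ (Nat.le_ceil _)
    rw [ht, ecost_bind]
    simp only [ecost, ex_const, ecost_rep, add_zero]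
    gcongr
    exact ecost_blk G hθ τ
  have h3 := ex_trunc G 0 t f0 f1 q
  have h4 : 2 / 3 ≤ ex G (trunc 0 t q) f := by
    have hq0 : (0 : ℝ) < q + 1 := by positivity
    by_contra hc
    nlinarith [mul_lt_mul_of_pos_left (not_le.1 hc) hq0, mul_le_mul_of_nonneg_left h1 hq0.le]
  have h5 := run_eq_ex G (hnc.trunc 0 q) {g | IsEstimate G ε g}
  show _ ≤ (run G (trunc 0 t q)).toOuterMeasure {x | x.1 ∈ {g | IsEstimate G ε g}}
  rw [h5]
  refine le_trans (le_of_eq ?_) (ENNReal.ofReal_le_ofReal h4)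
  rw [ENNReal.ofReal_div_of_pos (by norm_num)]
  simp

lemma budget_le {n m a μ ε : ℝ} (ha : 0 < a) (han : a ≤ n) (hn : 1 ≤ n) (hm : 0 ≤ m) (hμ : 0 < μ)
    (hε : 0 < ε) (hε1 : ε < 1) :
    (budget n m a μ ε : ℝ) ≤ 625 * (1 + Real.log n) / ε ^ 3 * (n / a + m / μ) := by
  have hL := idx_le hε hε1 hn
  have hl := Real.log_nonneg hn
  have h1 : 1 ≤ n / a := (one_le_div ha).2 han
  have hε2 : ε ^ 2 ≤ 1 := by nlinarith
  have hε3 : ε ^ 3 ≤ 1 := pow_le_one₀ hε.le hε1.le
  have h2 : (1 : ℝ) ≤ ((idx ε n : ℝ) + 1) * n / (a * ε ^ 2) := by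
    rw [le_div_iff₀ (by positivity)]
    nlinarith [Nat.cast_nonneg (α := ℝ) (idx ε n), mul_le_mul_of_nonneg_left hε2 ha.le]
  have h3 : (rounds n a ε : ℝ) ≤ 13 * (2 * (1 + Real.log n) / ε) * n / (a * ε ^ 2) := by
    refine (Nat.ceil_lt_add_one (by positivity)).le.trans ?_
    calc _ ≤ 12 * ((idx ε n : ℝ) + 1) * n / (a * ε ^ 2) + ((idx ε n : ℝ) + 1) * n / (a * ε ^ 2) := by
          gcongr
      _ = 13 * ((idx ε n : ℝ) + 1) * n / (a * ε ^ 2) := by ring
      _ ≤ _ := by gcongr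
  refine (Nat.ceil_lt_add_one (by positivity)).le.trans ?_
  have h4 : 1 ≤ (1 + Real.log n) / ε ^ 3 * (n / a + m / μ) := by
    refine one_le_mul_of_one_le_of_one_le ?_ (le_add_of_le_of_nonneg h1 (by positivity))
    rw [le_div_iff₀ (by positivity)]
    linarith
  calc _ ≤ 6 * (13 * (2 * (1 + Real.log n) / ε) * n / (a * ε ^ 2) * (4 + 4 * m / (n * (μ / a)))) +
        (1 + Real.log n) / ε ^ 3 * (n / a + m / μ) := by gcongr
    _ = _ := by field_simp; ring

theorem upper (V : Type) [Fintype V] [Nonempty V] (m h μ : ℕ) (hm : 0 < m) (ε : ℝ) (hε : 0 < ε)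
    (hε1 : ε < 1) : ∃ A : Alg V (ℝ → ℝ), ∀ G : SimpleGraph V, HasParams G m h μ →
      Solves A G ε ∧ ∀ x ∈ (run G A).support, (x.2 : ℝ) ≤
        1250 * (1 + Real.log (Fintype.card V)) / ε ^ 3 * bound (Fintype.card V) m h μ := by
  have hn : (1 : ℝ) ≤ Fintype.card V := by exact_mod_cast Fintype.card_pos
  have hl := Real.log_nonneg hn
  by_cases hc : h * (h + 1) < μ
  · refine ⟨algo V m (μ / h) μ ε (Fintype.card V), fun G hG => ?_⟩
    have h1 : (1 : ℝ) ≤ h := by exact_mod_cast hG.h_pos hm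
    have h2 : (h : ℝ) * (h + 1) < μ := by exact_mod_cast hc
    have h3 : (0 : ℝ) < μ := by nlinarith
    have h4 : (μ : ℝ) ≤ Fintype.card V := by exact_mod_cast hG.mu_le_card hm
    have h5 : ∀ d, 1 ≤ prof G d → d ≤ h := by
      intro d hd
      by_contra hlt
      have e1 := hG.mu_le (d := h + 1) (by omega) (hd.trans (prof_anti G (by omega)))
      have e2 := Nat.mul_le_mul_left (h + 1) (hG.prof_le_h (Nat.lt_succ_self h))
      simp only [Nat.succ_eq_add_one] at e2
      rw [mul_comm h] at hc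
      omega
    refine ⟨?_, fun x hx => ?_⟩
    · rw [← hG.1]
      refine algo_solves G (by positivity) h3 hε hε1 _ (fun d hd _ hp => ?_) (fun d hd hp => ?_)
        fun d hd hp => by exact_mod_cast hG.mu_le hd hp
      · rw [div_le_iff₀ (by positivity), mul_comm]
        exact_mod_cast (hG.mu_le hd hp).trans (Nat.mul_le_mul_right _ (h5 d hp))
      · have := (h5 d hp).trans ((hG.h_le_mu hm).trans (hG.mu_le_card hm))
        omega
    · have e1 : (x.2 : ℝ) ≤ budget (Fintype.card V) m (μ / h) μ ε := by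
        exact_mod_cast trunc_support G _ _ _ x hx
      refine (e1.trans (budget_le (by positivity) ((div_le_self h3.le h1).trans h4) hn
        (Nat.cast_nonneg _) h3 hε hε1)).trans ?_
      rw [bound, max_eq_right (by rw [le_div_iff₀ (by positivity)]; nlinarith)]
      gcongr
      norm_num
  · refine ⟨algo V m h μ ε h, fun G hG => ?_⟩
    have h1 : (1 : ℝ) ≤ h := by exact_mod_cast hG.h_pos hm
    have h2 : (μ : ℝ) ≤ h * (h + 1) := by exact_mod_cast not_lt.1 hc
    have h3' : (h : ℝ) ≤ μ := by exact_mod_cast hG.h_le_mu hm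
    have h3 : (0 : ℝ) < μ := by linarith
    have h4 : (μ : ℝ) ≤ Fintype.card V := by exact_mod_cast hG.mu_le_card hm
    refine ⟨?_, fun x hx => ?_⟩
    · rw [← hG.1]
      exact algo_solves G (by positivity) h3 hε hε1 _
        (fun d _ hd _ => by exact_mod_cast hG.le_prof hd) (fun d hd _ => by exact_mod_cast hd.le)
        fun d hd hp => by exact_mod_cast hG.mu_le hd hp
    · have e1 : (x.2 : ℝ) ≤ budget (Fintype.card V) m h μ ε := by
        exact_mod_cast trunc_support G _ _ _ x hx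
      refine (e1.trans (budget_le (by positivity) (h3'.trans h4) hn
        (Nat.cast_nonneg _) h3 hε hε1)).trans ?_
      have e2 : (Fintype.card V : ℝ) / h ≤ 2 * (Fintype.card V / max (h : ℝ) (μ / h)) := by
        rw [← mul_div_assoc, div_le_div_iff₀ (by positivity) (by positivity)]
        have : max (h : ℝ) (μ / h) ≤ 2 * h :=
          max_le (by linarith) (by rw [div_le_iff₀ (by positivity)]; nlinarith)
        nlinarith
      have e3 : (0 : ℝ) ≤ m / μ := by positivity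
      calc _ ≤ 625 * (1 + Real.log (Fintype.card V)) / ε ^ 3 *
            (2 * bound (Fintype.card V) m h μ) := by
            gcongr
            rw [bound]; linarith
        _ = _ := by ring

end Pool.Agent.MP_16e32a_lc

end
end MrgPart0

-- ======== part 1: formerly Pool.Agent.MP_16e32a_lc.Graphs
section MrgPart1

/-! The hard instances: building blocks and their degrees. -/

set_option linter.unusedSectionVars false

open scoped Classical
open Finset

noncomputable section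

namespace Pool.Agent.MP_16e32a_lc

section general

variable {V W W' : Type} [Fintype V] [Fintype W] [Fintype W']

def ind (p : Prop) : ℕ := if p then 1 else 0

lemma ind_pos {p : Prop} (h : p) : ind p = 1 := if_pos h

lemma ind_neg {p : Prop} (h : ¬ p) : ind p = 0 := if_neg h

@[simp] lemma ind_true : ind True = 1 := ind_pos trivial

@[simp] lemma ind_false : ind False = 0 := ind_neg id

lemma ind_and (p q : Prop) : ind (p ∧ q) = ind p * ind q := by
  by_cases hp : p <;> by_cases hq : q <;> simp [hp, hq]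

lemma sum_ind_mul (a : V) (f : V → ℕ) : ∑ x, ind (a = x) * f x = f a := by
  rw [sum_eq_single a]
  · simp
  · intro b _ hb
    rw [ind_neg hb.symm, zero_mul]
  · simp

lemma sum_ind_mul' (a : V) (f : V → ℕ) : ∑ x, ind (x = a) * f x = f a := by
  simpa only [eq_comm] using sum_ind_mul a f

lemma sum_ind (a : V) : ∑ x, ind (a = x) = 1 := by
  simpa using sum_ind_mul a fun _ => 1

def dg (G : SimpleGraph V) (v : V) : ℕ := ∑ w, ind (G.Adj v w)

lemma degree_eq_dg (G : SimpleGraph V) (v : V) : G.degree v = dg G v := by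
  simp only [dg, ind]
  rw [← card_filter, ← SimpleGraph.card_neighborFinset_eq_degree,
    SimpleGraph.neighborFinset_eq_filter]

def dsum (G : SimpleGraph V) (φ : ℕ → ℕ) : ℕ := ∑ v, φ (dg G v)

lemma prof_eq_dsum (G : SimpleGraph V) (d : ℕ) :
    prof G d = dsum G fun D => if d ≤ D then 1 else 0 := by
  simp only [prof_eq_sum, dsum, degree_eq_dg]

lemma edges_eq_dsum (G : SimpleGraph V) : 2 * G.edgeFinset.card = dsum G id := by
  simp only [← degsum, dsum, degree_eq_dg, id]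

def build (f : W ⊕ W' ↪ V) (B : SimpleGraph W) (H : SimpleGraph W') : SimpleGraph V :=
  (B ⊕g H).map f

lemma sum_range_emb {X : Type} [Fintype X] (f : X ↪ V) (g : V → ℕ)
    (h : ∀ v, v ∉ Set.range f → g v = 0) : ∑ v, g v = ∑ x, g (f x) := by
  rw [← sum_map univ f g]
  refine (sum_subset (subset_univ _) fun v _ hv => h v ?_).symm
  rintro ⟨x, rfl⟩
  exact hv (mem_map_of_mem f (mem_univ x))

lemma dg_map {X : Type} [Fintype X] (f : X ↪ V) (G : SimpleGraph X) (x : X) :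
    dg (G.map f) (f x) = dg G x := by
  rw [dg, sum_range_emb f]
  · simp [dg]
  · intro v hv
    rw [ind_neg]
    rw [SimpleGraph.map_adj]
    rintro ⟨_, w, -, -, rfl⟩
    exact hv ⟨w, rfl⟩

lemma dg_map_of_not {X : Type} [Fintype X] (f : X ↪ V) (G : SimpleGraph X) {v : V}
    (hv : v ∉ Set.range f) : dg (G.map f) v = 0 := by
  refine sum_eq_zero fun w _ => ind_neg ?_
  rw [SimpleGraph.map_adj]
  rintro ⟨u, _, -, rfl, -⟩
  exact hv ⟨u, rfl⟩

lemma dg_sum_inl (B : SimpleGraph W) (H : SimpleGraph W') (x : W) :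
    dg (B ⊕g H) (.inl x) = dg B x := by
  simp [dg, Fintype.sum_sum_type]

lemma dg_sum_inr (B : SimpleGraph W) (H : SimpleGraph W') (x : W') :
    dg (B ⊕g H) (.inr x) = dg H x := by
  simp [dg, Fintype.sum_sum_type]

lemma dsum_build (f : W ⊕ W' ↪ V) (B : SimpleGraph W) (H : SimpleGraph W') {φ : ℕ → ℕ}
    (h0 : φ 0 = 0) : dsum (build f B H) φ = dsum B φ + dsum H φ := by
  rw [dsum, sum_range_emb f _ fun v hv => by rw [build, dg_map_of_not f _ hv, h0]]
  simp only [build, dg_map, Fintype.sum_sum_type, dg_sum_inl, dg_sum_inr, dsum]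

def Near' (G0 G : SimpleGraph W') (S : Set W') (M : Set (W' × W')) : Prop :=
  ∀ v, v ∉ S → dg G v = dg G0 v ∧ ∀ w, G0.Adj v w → (v, w) ∉ M → G.Adj v w

lemma near_build [Nonempty V] (f : W ⊕ W' ↪ V) (B : SimpleGraph W) {H0 H : SimpleGraph W'}
    {S : Set W'} {M : Set (W' × W')} (h : Near' H0 H S M) :
    Near (build f B H0) (build f B H) ((fun x => f (.inr x)) '' S)
      ((fun e => (f (.inr e.1), f (.inr e.2))) '' M) := by
  intro v hv
  rw [degree_eq_dg, degree_eq_dg, build, build]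
  by_cases hr : v ∈ Set.range f
  · obtain ⟨x, rfl⟩ := hr
    rw [dg_map, dg_map]
    cases x with
    | inl x =>
      refine ⟨by rw [dg_sum_inl, dg_sum_inl], fun w hw _ => ?_⟩
      rw [SimpleGraph.map_adj] at hw ⊢
      obtain ⟨u, y, h1, h2, rfl⟩ := hw
      obtain rfl := f.injective h2
      refine ⟨_, y, ?_, rfl, rfl⟩
      cases y
      · exact h1
      · exact h1
    | inr x =>
      have hx : x ∉ S := fun hx => hv ⟨x, hx, rfl⟩
      refine ⟨by rw [dg_sum_inr, dg_sum_inr, (h x hx).1], fun w hw hM => ?_⟩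
      rw [SimpleGraph.map_adj] at hw ⊢
      obtain ⟨u, y, h1, h2, rfl⟩ := hw
      obtain rfl := f.injective h2
      refine ⟨_, y, ?_, rfl, rfl⟩
      cases y with
      | inl y => simp at h1
      | inr y => exact (h x hx).2 y h1 fun hm => hM ⟨(x, y), hm, rfl⟩
  · refine ⟨by rw [dg_map_of_not f _ hr, dg_map_of_not f _ hr], fun w hw _ => ?_⟩
    rw [SimpleGraph.map_adj] at hw
    obtain ⟨u, _, -, rfl, -⟩ := hw
    exact absurd ⟨u, rfl⟩ hr

end general

/-! ### disjoint unions of complete bipartite graphs -/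

section bip

variable {I : Type} [Fintype I] (c a b : I → ℕ)

abbrev BipV : Type := Σ i : I, Fin (c i) × (Fin (a i) ⊕ Fin (b i))

def bip : SimpleGraph (BipV c a b) where
  Adj u v := (⟨u.1, u.2.1⟩ : Σ i, Fin (c i)) = ⟨v.1, v.2.1⟩ ∧ u.2.2.isLeft ≠ v.2.2.isLeft
  symm.symm _ _ h := ⟨h.1.symm, h.2.symm⟩
  loopless.irrefl _ h := h.2 rfl

lemma dg_bip (i : I) (x : Fin (c i)) (y : Fin (a i) ⊕ Fin (b i)) :
    dg (bip c a b) ⟨i, x, y⟩ = if y.isLeft then b i else a i := by
  rw [dg, Fintype.sum_sigma, sum_eq_single i]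
  · rw [Fintype.sum_prod_type, sum_eq_single x]
    · cases y <;> simp [bip, Fintype.sum_sum_type]
    · intro x' _ hx
      refine sum_eq_zero fun z _ => ind_neg fun h => hx ?_
      simpa using h.1.symm
    · simp
  · intro j _ hj
    exact sum_eq_zero fun z _ => ind_neg fun h => hj (congrArg Sigma.fst h.1).symm
  · simp

lemma dsum_bip (φ : ℕ → ℕ) :
    dsum (bip c a b) φ = ∑ i, c i * (a i * φ (b i) + b i * φ (a i)) := by
  simp [dsum, Fintype.sum_sigma, Fintype.sum_prod_type, Fintype.sum_sum_type, dg_bip]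

lemma card_bip : Fintype.card (BipV c a b) = ∑ i, c i * (a i + b i) := by
  simp

end bip

/-! ### first family: a hidden gadget -/

section fam1

variable (T u h : ℕ)

abbrev V1 : Type := Fin T × Fin u × Fin 8 × Fin h

variable {T u h}

def g1 (Γ : SimpleGraph (Fin 8)) (j : Fin T) : SimpleGraph (V1 T u h) where
  Adj v w := v.1 = j ∧ w.1 = j ∧ v.2.1 = w.2.1 ∧ Γ.Adj v.2.2.1 w.2.2.1
  symm.symm _ _ h := ⟨h.2.1, h.1, h.2.2.1.symm, h.2.2.2.symm⟩
  loopless.irrefl _ h := Γ.irrefl h.2.2.2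

lemma dg_g1 (Γ : SimpleGraph (Fin 8)) (j : Fin T) (v : V1 T u h) :
    dg (g1 Γ j) v = if v.1 = j then h * dg Γ v.2.2.1 else 0 := by
  obtain ⟨t, c, g, x⟩ := v
  by_cases ht : t = j
  · subst ht
    simp only [dg, g1, Fintype.sum_prod_type, true_and, if_true, ind_and, ← mul_sum,
      sum_ind_mul, sum_ind_mul', sum_const, card_univ, Fintype.card_fin, smul_eq_mul]
  · simp [dg, g1, ht]

lemma dsum_g1 (Γ : SimpleGraph (Fin 8)) (j : Fin T) {φ : ℕ → ℕ} (h0 : φ 0 = 0) :
    dsum (g1 (u := u) (h := h) Γ j) φ = u * (h * ∑ g, φ (h * dg Γ g)) := by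
  simp [dsum, dg_g1, Fintype.sum_prod_type, apply_ite φ, h0, mul_sum]

lemma near_g1 (Γ : SimpleGraph (Fin 8)) (j : Fin T) :
    Near' ⊥ (g1 (u := u) (h := h) Γ j) {v | v.1 = j} ∅ := fun v hv =>
  ⟨by rw [dg_g1, if_neg (show ¬ v.1 = j from hv)]; simp [dg], by simp⟩

def ΓA : SimpleGraph (Fin 8) where
  Adj g g' := g.val < 4 ∧ g'.val < 4 ∧ g.val / 2 ≠ g'.val / 2
  symm.symm _ _ h := ⟨h.2.1, h.1, h.2.2.symm⟩
  loopless.irrefl _ h := h.2.2 rfl

def ΓB : SimpleGraph (Fin 8) where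
  Adj g g' := g.val / 2 = g'.val / 2 ∧ g ≠ g'
  symm.symm _ _ h := ⟨h.1.symm, h.2.symm⟩
  loopless.irrefl _ h := h.2 rfl

lemma dg_ΓA (g : Fin 8) : dg ΓA g = if g.val < 4 then 2 else 0 := by
  simp only [dg, ΓA, Fin.sum_univ_eight]
  fin_cases g <;> simp

lemma dg_ΓB (g : Fin 8) : dg ΓB g = 1 := by
  simp only [dg, ΓB, Fin.sum_univ_eight]
  fin_cases g <;> simp

lemma dsum_g1A (j : Fin T) {φ : ℕ → ℕ} (h0 : φ 0 = 0) :
    dsum (g1 (u := u) (h := h) ΓA j) φ = 4 * u * h * φ (2 * h) := by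
  rw [dsum_g1 _ _ h0]
  simp only [dg_ΓA, Fin.sum_univ_eight]
  simp [h0, mul_comm h 2]
  ring

lemma dsum_g1B (j : Fin T) {φ : ℕ → ℕ} (h0 : φ 0 = 0) :
    dsum (g1 (u := u) (h := h) ΓB j) φ = 8 * u * h * φ h := by
  rw [dsum_g1 _ _ h0]
  simp [dg_ΓB]
  ring

end fam1

/-! ### second family: hidden hubs -/

section fam2

variable (P h : ℕ)

abbrev V2 : Type := (Fin P × Bool × Bool × ZMod h) ⊕ ((Fin P × ZMod h) × Bool)

variable {P h} [NeZero h]

def adj2 (S : Finset (Fin P × ZMod h)) (ψ : Bool → Bool) : V2 P h → V2 P h → Prop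
  | .inl v, .inl w => v.1 = w.1 ∧ v.2.1 = w.2.1 ∧ v.2.2.1 ≠ w.2.2.1 ∧ (v.1, v.2.2.2 + w.2.2.2) ∉ S
  | .inl v, .inr w => w.1 ∈ S ∧ w.1.1 = v.1 ∧ ψ v.2.1 = w.2
  | .inr w, .inl v => w.1 ∈ S ∧ w.1.1 = v.1 ∧ ψ v.2.1 = w.2
  | .inr _, .inr _ => False

def g2 (S : Finset (Fin P × ZMod h)) (ψ : Bool → Bool) : SimpleGraph (V2 P h) where
  Adj := adj2 S ψ
  symm.symm := by
    rintro (v | v) (w | w) hh
    · exact ⟨hh.1.symm, hh.2.1.symm, hh.2.2.1.symm, by rw [← hh.1, add_comm]; exact hh.2.2.2⟩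
    · exact hh
    · exact hh
    · exact hh
  loopless.irrefl := by
    rintro (v | v) hh
    · exact hh.2.2.1 rfl
    · exact hh

lemma dg_g2_inl (S : Finset (Fin P × ZMod h)) (ψ : Bool → Bool) (v : Fin P × Bool × Bool × ZMod h) :
    dg (g2 S ψ) (.inl v) = h := by
  obtain ⟨p, e, s, x⟩ := v
  have h1 : ∑ w : Fin P × Bool × Bool × ZMod h,
      ind (adj2 S ψ (.inl (p, e, s, x)) (.inl w)) = ∑ y : ZMod h, ind ((p, y) ∉ S) := by
    rw [← Equiv.sum_comp (Equiv.addLeft x) fun y => ind ((p, y) ∉ S)]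
    simp only [adj2, Fintype.sum_prod_type, ind_and, ← mul_sum, sum_ind_mul, Equiv.coe_addLeft]
    cases s <;> simp
  have h2 : ∑ w : (Fin P × ZMod h) × Bool,
      ind (adj2 S ψ (.inl (p, e, s, x)) (.inr w)) = ∑ y : ZMod h, ind ((p, y) ∈ S) := by
    simp only [adj2, Fintype.sum_prod_type, ind_and, ← mul_sum, sum_ind, mul_one]
    rw [sum_eq_single p]
    · simp
    · intro q _ hq
      simp [hq]
    · simp
  rw [dg, Fintype.sum_sum_type]
  refine (congrArg₂ (· + ·) h1 h2).trans ?_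
  rw [← sum_add_distrib, sum_congr rfl (g := fun _ => 1) fun y _ => by
    by_cases hy : (p, y) ∈ S <;> simp [hy]]
  simp

lemma dg_g2_inr (S : Finset (Fin P × ZMod h)) (ψ : Bool → Bool) (w : (Fin P × ZMod h) × Bool) :
    dg (g2 S ψ) (.inr w) =
      if w.1 ∈ S then 2 * h * ∑ e, ind (ψ e = w.2) else 0 := by
  rw [dg, Fintype.sum_sum_type]
  by_cases hw : w.1 ∈ S
  · simp only [g2, adj2, hw, true_and, Fintype.sum_prod_type, ind_and, ← mul_sum, sum_ind_mul,
      if_true, ind_false, sum_const, card_univ, ZMod.card, Fintype.card_bool,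
      Fintype.card_prod, smul_eq_mul]
    ring
  · simp [g2, adj2, hw]

lemma dsum_g2 (S : Finset (Fin P × ZMod h)) (ψ : Bool → Bool) {φ : ℕ → ℕ} (h0 : φ 0 = 0) :
    dsum (g2 S ψ) φ = 4 * P * h * φ h +
      S.card * ∑ e', φ (2 * h * ∑ e, ind (ψ e = e')) := by
  rw [dsum, Fintype.sum_sum_type]
  congr 1
  · simp only [dg_g2_inl, sum_const, card_univ, Fintype.card_prod, Fintype.card_fin,
      Fintype.card_bool, ZMod.card, smul_eq_mul]
    ring
  · rw [Fintype.sum_prod_type]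
    simp only [dg_g2_inr, apply_ite φ, h0, sum_ite_irrel, sum_const_zero]
    rw [← sum_filter]
    simp

lemma dsum_g2A (S : Finset (Fin P × ZMod h)) {φ : ℕ → ℕ} (h0 : φ 0 = 0) :
    dsum (g2 S fun _ => false) φ = 4 * P * h * φ h + S.card * φ (4 * h) := by
  rw [dsum_g2 _ _ h0]
  simp [h0, mul_right_comm 2 h 2]

lemma dsum_g2B (S : Finset (Fin P × ZMod h)) {φ : ℕ → ℕ} (h0 : φ 0 = 0) :
    dsum (g2 S id) φ = 4 * P * h * φ h + S.card * (2 * φ (2 * h)) := by
  rw [dsum_g2 _ _ h0]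
  simp [two_mul]

def S2 (S : Finset (Fin P × ZMod h)) : Set (V2 P h) := {v | ∃ w, v = .inr w ∧ w.1 ∈ S}

def M2 (S : Finset (Fin P × ZMod h)) : Set (V2 P h × V2 P h) :=
  {e | ∃ v w, e = (.inl v, .inl w) ∧ (v.1, v.2.2.2 + w.2.2.2) ∈ S}

lemma near_g2 (S : Finset (Fin P × ZMod h)) (ψ ψ' : Bool → Bool) :
    Near' (g2 ∅ ψ') (g2 S ψ) (S2 S) (M2 S) := by
  rintro (v | v) hv
  · refine ⟨by rw [dg_g2_inl, dg_g2_inl], ?_⟩
    rintro (w | w) h1 h2
    · exact ⟨h1.1, h1.2.1, h1.2.2.1, fun h3 => h2 ⟨v, w, rfl, h3⟩⟩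
    · exact absurd h1.1 (by simp)
  · have : v.1 ∉ S := fun h => hv ⟨v, rfl, h⟩
    refine ⟨by simp [dg_g2_inr, this], ?_⟩
    rintro (w | w) h1 _
    · exact absurd h1.1 (by simp)
    · exact h1

end fam2

end Pool.Agent.MP_16e32a_lc

end
end MrgPart1

-- ======== part 2: formerly Pool.Agent.MP_16e32a_lc.Base
section MrgPart2

/-! The common part of the hard instances. -/

set_option linter.unusedSectionVars false

open scoped Classical ENNReal
open Finset

noncomputable section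

namespace Pool.Agent.MP_16e32a_lc

def ge (d D : ℕ) : ℕ := if d ≤ D then 1 else 0

lemma ge_pos {d D : ℕ} (h : d ≤ D) : ge d D = 1 := if_pos h

lemma ge_neg {d D : ℕ} (h : D < d) : ge d D = 0 := if_neg (not_le.2 h)

lemma prof_build {V W W' : Type} [Fintype V] [Fintype W] [Fintype W'] (f : W ⊕ W' ↪ V)
    (B : SimpleGraph W) (H : SimpleGraph W') {d : ℕ} (hd : 1 ≤ d) :
    prof (build f B H) d = dsum B (ge d) + dsum H (ge d) := by
  rw [prof_eq_dsum, ← dsum_build f B H (ge_neg hd)]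
  rfl

lemma edges_build {V W W' : Type} [Fintype V] [Fintype W] [Fintype W'] (f : W ⊕ W' ↪ V)
    (B : SimpleGraph W) (H : SimpleGraph W') :
    2 * (build f B H).edgeFinset.card = dsum B id + dsum H id := by
  rw [edges_eq_dsum, dsum_build f B H rfl]

section base

variable (h k P : ℕ)

def lv (i : ℕ) : ℕ := min (2 ^ (i + 1)) h

def cB : Fin (Nat.log 2 h + 1) ⊕ Fin 4 → ℕ :=
  Sum.elim (fun i => 5 * h * k / 4 ^ i.val + 1) ![P, 1, 4 * k, k]

def aB : Fin (Nat.log 2 h + 1) ⊕ Fin 4 → ℕ := Sum.elim (fun i => lv h i) ![h, 3 * h, 1, 1]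

def bB : Fin (Nat.log 2 h + 1) ⊕ Fin 4 → ℕ :=
  Sum.elim (fun i => lv h i) ![h, 3 * h, 4 * h, 5 * h]

abbrev BV : Type := BipV (cB h k P) (aB h) (bB h)

def base : SimpleGraph (BV h k P) := bip _ _ _

lemma dsum_base (φ : ℕ → ℕ) : dsum (base h k P) φ =
    ∑ i ∈ range (Nat.log 2 h + 1), (5 * h * k / 4 ^ i + 1) * (2 * lv h i * φ (lv h i)) +
      (2 * P * h * φ h + 6 * h * φ (3 * h) + 4 * k * φ (4 * h) + k * φ (5 * h) +
        21 * h * k * φ 1) := by
  rw [base, dsum_bip, Fintype.sum_sum_type, Fin.sum_univ_four, sum_range]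
  congr 1
  · refine sum_congr rfl fun i _ => ?_
    simp only [cB, aB, bB, Sum.elim_inl]
    ring
  · simp only [cB, aB, bB, Sum.elim_inr]
    simp
    ring

lemma card_BV : Fintype.card (BV h k P) = dsum (base h k P) fun _ => 1 := by
  simp [dsum]

variable {h k P}

lemma base_hi (h1 : 1 ≤ h) {d : ℕ} (hd : h < d) : dsum (base h k P) (ge d) =
    6 * h * ge d (3 * h) + 4 * k * ge d (4 * h) + k * ge d (5 * h) := by
  rw [dsum_base, sum_eq_zero, ge_neg hd, ge_neg (show 1 < d by omega)]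
  · ring
  · intro i _
    rw [ge_neg (D := lv h i) ((min_le_right _ _).trans_lt hd)]
    simp

lemma base_lo {d : ℕ} (h1 : 1 ≤ d) (hd : d ≤ h) : 5 * h * k ≤ d * dsum (base h k P) (ge d) := by
  rw [dsum_base]
  set i := Nat.log 2 d
  have hi : i ∈ range (Nat.log 2 h + 1) := mem_range.2 (Nat.lt_succ_of_le (Nat.log_mono_right hd))
  have h2 : 2 ^ i ≤ d := Nat.pow_log_le_self 2 (by omega)
  have h3 : d ≤ lv h i := le_min (Nat.lt_pow_succ_log_self one_lt_two d).le hd
  have h4 := single_le_sum (f := fun i => (5 * h * k / 4 ^ i + 1) * (2 * lv h i * ge d (lv h i)))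
    (fun _ _ => Nat.zero_le _) hi
  refine le_trans ?_ (Nat.mul_le_mul_left d (h4.trans (Nat.le_add_right _ _)))
  rw [ge_pos h3]
  have h5 : 5 * h * k < 4 ^ i * (5 * h * k / 4 ^ i + 1) :=
    Nat.lt_mul_div_succ _ (by positivity)
  have h6 : 4 ^ i ≤ d * lv h i := by
    rw [show 4 = 2 * 2 from rfl, mul_pow]
    exact Nat.mul_le_mul h2 (h2.trans h3)
  have h7 := Nat.mul_le_mul_right (5 * h * k / 4 ^ i + 1) h6
  nlinarith

lemma sum_two_pow (L : ℕ) : ∑ i ∈ range L, 2 ^ i ≤ 2 ^ L := by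
  induction L with
  | zero => simp
  | succ L ih => rw [sum_range_succ, pow_succ]; omega

lemma sum_div_two_pow (M L : ℕ) : ∑ i ∈ range L, M / 2 ^ i ≤ 2 * M := by
  suffices ∑ i ∈ range L, M / 2 ^ i + 2 * (M / 2 ^ L) ≤ 2 * M by omega
  induction L with
  | zero => simp
  | succ L ih =>
    rw [sum_range_succ, pow_succ, ← Nat.div_div_eq_div_mul]
    omega

lemma sum_lv (h1 : 1 ≤ h) : ∑ i ∈ range (Nat.log 2 h + 1), lv h i ≤ 4 * h := by
  have h2 : ∑ i ∈ range (Nat.log 2 h + 1), lv h i ≤ ∑ i ∈ range (Nat.log 2 h + 1), 2 * 2 ^ i :=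
    sum_le_sum fun i _ => (min_le_left _ _).trans (by rw [pow_succ'])
  have h3 := sum_two_pow (Nat.log 2 h + 1)
  have h4 := Nat.pow_log_le_self 2 (show h ≠ 0 by omega)
  rw [← mul_sum] at h2
  rw [pow_succ] at h3
  omega

lemma base_card (h1 : 1 ≤ h) :
    Fintype.card (BV h k P) ≤ 14 * h + 2 * (P * h) + 66 * (h * k) := by
  rw [card_BV, dsum_base]
  have h2 : ∑ i ∈ range (Nat.log 2 h + 1), (5 * h * k / 4 ^ i + 1) * (2 * lv h i * 1) ≤
      ∑ i ∈ range (Nat.log 2 h + 1), (4 * (5 * h * k / 2 ^ i) + 2 * lv h i) := by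
    refine sum_le_sum fun i _ => ?_
    have h3 : lv h i ≤ 2 * 2 ^ i := (min_le_left _ _).trans (by rw [pow_succ'])
    have h4 : 5 * h * k / 4 ^ i * 2 ^ i ≤ 5 * h * k / 2 ^ i := by
      rw [show 4 = 2 * 2 from rfl, mul_pow, ← Nat.div_div_eq_div_mul]
      exact Nat.div_mul_le_self _ _
    have h5 := Nat.mul_le_mul_left (5 * h * k / 4 ^ i) h3
    nlinarith
  rw [sum_add_distrib, ← mul_sum, ← mul_sum] at h2
  have h3 := sum_div_two_pow (5 * h * k) (Nat.log 2 h + 1)
  have h4 := sum_lv h1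
  have h5 : k ≤ h * k := Nat.le_mul_of_pos_left _ h1
  nlinarith

lemma base_deg_ge : 2 * (P * (h * h)) ≤ dsum (base h k P) id := by
  rw [dsum_base]
  simp only [id]
  nlinarith [Nat.zero_le (∑ i ∈ range (Nat.log 2 h + 1),
    (5 * h * k / 4 ^ i + 1) * (2 * lv h i * lv h i)), Nat.zero_le (h * h), Nat.zero_le (h * k)]

lemma base_deg_le (h1 : 1 ≤ h) : dsum (base h k P) id ≤
    40 * ((Nat.log 2 h + 1) * (h * k)) + 26 * (h * h) + 2 * (P * (h * h)) + 42 * (h * k) := by
  rw [dsum_base]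
  simp only [id]
  have h2 : ∑ i ∈ range (Nat.log 2 h + 1), (5 * h * k / 4 ^ i + 1) * (2 * lv h i * lv h i) ≤
      ∑ i ∈ range (Nat.log 2 h + 1), (40 * (h * k) + 2 * h * lv h i) := by
    refine sum_le_sum fun i _ => ?_
    have h3 : lv h i ≤ 2 * 2 ^ i := (min_le_left _ _).trans (by rw [pow_succ'])
    have h3' : lv h i ≤ h := min_le_right _ _
    have h4 : 5 * h * k / 4 ^ i * 4 ^ i ≤ 5 * h * k := Nat.div_mul_le_self _ _
    have h5 : lv h i * lv h i ≤ 4 * 4 ^ i := by
      rw [show (4 : ℕ) ^ i = 2 ^ i * 2 ^ i by rw [← mul_pow]; rfl]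
      nlinarith [Nat.mul_le_mul h3 h3]
    have h6 := Nat.mul_le_mul_left (5 * h * k / 4 ^ i) h5
    have h7 := Nat.mul_le_mul_right (lv h i) h3'
    nlinarith
  rw [sum_add_distrib, sum_const, ← mul_sum, card_range, smul_eq_mul] at h2
  have h4 := Nat.mul_le_mul_left (2 * h) (sum_lv h1)
  nlinarith

variable {V W' : Type} [Fintype V] [Fintype W']

lemma mu_build (h1 : 1 ≤ h) (hk : 1 ≤ k) (f : BV h k P ⊕ W' ↪ V) (H : SimpleGraph W')
    (hH : ∀ d, 4 * h < d → dsum H (ge d) = 0) : mu (build f (base h k P) H) = (4 * h + 1) * k := by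
  have e : prof (build f (base h k P) H) (4 * h + 1) = k := by
    rw [prof_build _ _ _ (by omega), hH _ (by omega), base_hi h1 (by omega), ge_neg (by omega),
      ge_neg (by omega), ge_pos (by omega)]
    simp
  refine mu_eq _ (d := 4 * h + 1) (by omega) (by rwa [e]) (by rw [e]) fun d hd hp => ?_
  rw [prof_build _ _ _ hd] at hp ⊢
  have h5 : (4 * h + 1) * k ≤ 5 * h * k := Nat.mul_le_mul_right _ (by omega)
  rcases le_or_gt d h with h2 | h2
  · exact h5.trans ((base_lo hd h2).trans (Nat.mul_le_mul_left _ (Nat.le_add_right _ _)))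
  · rw [base_hi h1 h2] at hp ⊢
    rcases le_or_gt d (4 * h) with h3 | h3
    · rw [ge_pos h3, ge_pos (show d ≤ 5 * h by omega)]
      refine h5.trans (le_trans ?_ (Nat.mul_le_mul h2.le (show 5 * k ≤ _ by omega)))
      exact le_of_eq (by ring)
    · rw [hH d h3, ge_neg h3, ge_neg (show 3 * h < d by omega)] at hp ⊢
      rcases le_or_gt d (5 * h) with h4 | h4
      · rw [ge_pos h4]
        exact Nat.mul_le_mul h3 (by omega)
      · rw [ge_neg h4] at hp
        omega

end base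

lemma distinguish {V : Type} [Fintype V] {G G' : SimpleGraph V} {D1 D2 : ℕ} {ε : ℝ}
    (hε : ε ≤ 1 / 8) (d : ℝ) (hd : 0 ≤ d) (h1 : 9 / 8 * d ≤ D2) (h2 : (D1 : ℝ) < 7 / 8 * d)
    (h3 : 9 * prof G' (D1 + 1) < 7 * prof G D2) (f : ℝ → ℝ) (hG : IsEstimate G ε f) :
    ¬ IsEstimate G' ε f := by
  intro hG'
  have e1 : prof G D2 ≤ ccdh G ((1 + ε) * d) := by
    rw [← ccdh_nat]
    exact ccdh_anti G (by nlinarith)
  have e2 : ccdh G' ((1 - ε) * d) ≤ prof G' (D1 + 1) := by
    rw [ccdh_eq]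
    exact prof_anti G' (Nat.lt_ceil.2 (by nlinarith))
  have e3 := (hG d hd).1.trans (hG' d hd).2
  have e1' : (prof G D2 : ℝ) ≤ ccdh G ((1 + ε) * d) := by exact_mod_cast e1
  have e2' : (ccdh G' ((1 - ε) * d) : ℝ) ≤ prof G' (D1 + 1) := by exact_mod_cast e2
  have h3' : (9 : ℝ) * prof G' (D1 + 1) < 7 * prof G D2 := by exact_mod_cast h3
  have p1 : (0 : ℝ) ≤ ccdh G ((1 + ε) * d) := Nat.cast_nonneg _
  have p2 : (0 : ℝ) ≤ ccdh G' ((1 - ε) * d) := Nat.cast_nonneg _
  nlinarith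

theorem hard {V W W' ι : Type} [Fintype V] [Nonempty V] [Fintype W] [Fintype W'] [Fintype ι]
    [Nonempty ι] (f : W ⊕ W' ↪ V) (B : SimpleGraph W) (H0 : SimpleGraph W')
    (HA HB : ι → SimpleGraph W') (S : ι → Set W') (M : ι → Set (W' × W'))
    (hS : ∀ v i j, v ∈ S i → v ∈ S j → i = j) (hM : ∀ e i j, e ∈ M i → e ∈ M j → i = j)
    (hA : ∀ j, Near' H0 (HA j) (S j) (M j)) (hB : ∀ j, Near' H0 (HB j) (S j) (M j))
    {m h μ : ℕ} (pA : ∀ j, HasParams (build f B (HA j)) m h μ)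
    (pB : ∀ j, HasParams (build f B (HB j)) m h μ) {ε : ℝ}
    (hd : ∀ j g, IsEstimate (build f B (HA j)) ε g → ¬ IsEstimate (build f B (HB j)) ε g)
    (t : Alg V (ℝ → ℝ)) (ht : ∀ G, HasParams G m h μ → Solves t G ε) :
    ∃ G, HasParams G m h μ ∧ (Fintype.card ι : ℝ≥0∞) / 300 ≤ expectedQueries t G := by
  have inj : ∀ x y : W', f (.inr x) = f (.inr y) → x = y := fun x y e =>
    Sum.inr_injective (f.injective e)
  obtain ⟨j, hj | hj⟩ := adversary (build f B H0) (fun j => build f B (HA j))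
    (fun j => build f B (HB j)) _ _ (by
      rintro _ i j ⟨x, hx, rfl⟩ ⟨y, hy, e⟩
      exact hS x i j hx (inj _ _ e ▸ hy)) (by
      rintro _ i j ⟨x, hx, rfl⟩ ⟨y, hy, e⟩
      have : y = x := Prod.ext (inj _ _ (congrArg Prod.fst e)) (inj _ _ (congrArg Prod.snd e))
      exact hM x i j hx (this ▸ hy)) (fun j => near_build f B (hA j))
    (fun j => near_build f B (hB j)) hd t (fun j => ht _ (pA j)) (fun j => ht _ (pB j))
  · exact ⟨_, pA j, hj⟩
  · exact ⟨_, pB j, hj⟩

end Pool.Agent.MP_16e32a_lc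

end
end MrgPart2

-- ======== part 3: formerly Pool.Agent.MP_16e32a_lc.Lower
section MrgPart3

/-! The lower bound. -/

set_option linter.unusedSectionVars false

open scoped Classical ENNReal
open Finset

noncomputable section

namespace Pool.Agent.MP_16e32a_lc

variable {V : Type} [Fintype V] [Nonempty V]

def HardAt (V : Type) [Fintype V] [Nonempty V] (m h μ T : ℕ) : Prop :=
  ∀ ε : ℝ, ε ≤ 1 / 8 → ∀ t : Alg V (ℝ → ℝ), (∀ G, HasParams G m h μ → Solves t G ε) →
    ∃ G, HasParams G m h μ ∧ (T : ℝ≥0∞) / 300 ≤ expectedQueries t G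

theorem fam1 {h k P u T : ℕ} (h1 : 1 ≤ h) (hk : 1 ≤ k) (hu : k < u * h) (hT : 1 ≤ T)
    (f : BV h k P ⊕ V1 T u h ↪ V) : ∃ m' h', 2 * m' = dsum (base h k P) id + 8 * u * h * h ∧
      3 * h ≤ h' ∧ h' ≤ 5 * h ∧ HardAt V m' h' ((4 * h + 1) * k) T := by
  set B := base h k P
  have pB : ∀ d, prof B d = dsum B (ge d) := fun d => prof_eq_dsum B d
  have l3 : 3 * h ≤ hIndex B := le_hIndex B (by
    rw [pB, base_hi h1 (by omega), ge_pos le_rfl]; omega)
  have l5 : hIndex B ≤ 5 * h := by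
    by_contra hc
    have := hIndex_le_prof B
    rw [pB, base_hi h1 (by omega), ge_neg (by omega), ge_neg (by omega), ge_neg (by omega)] at this
    omega
  have j0 : Fin T := ⟨0, hT⟩
  have par : ∀ H : SimpleGraph (V1 T u h), dsum H id = 8 * u * h * h →
      (∀ d, 2 * h < d → dsum H (ge d) = 0) → HasParams (build f B H)
        (build f B (g1 ΓB j0)).edgeFinset.card (hIndex B) ((4 * h + 1) * k) := by
    intro H e1 e2
    refine ⟨?_, hIndex_eq _ ?_ ?_, mu_build h1 hk f H fun d hd => e2 d (by omega)⟩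
    · have a1 := edges_build f B H
      have a2 := edges_build f B (g1 ΓB j0)
      rw [dsum_g1B _ rfl, id] at a2
      omega
    · rw [prof_build _ _ _ (by omega), e2 _ (by omega), ← pB]
      exact hIndex_le_prof B
    · rw [prof_build _ _ _ (by omega), e2 _ (by omega), ← pB]
      exact prof_succ_le B
  refine ⟨(build f B (g1 ΓB j0)).edgeFinset.card, hIndex B, ?_, l3, l5, fun ε hε t ht => ?_⟩
  · rw [edges_build, dsum_g1B _ rfl, id]
  have : Nonempty (Fin T) := ⟨j0⟩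
  have := hard f B ⊥ (fun j => g1 ΓA j) (fun j => g1 ΓB j) (fun j => {v | v.1 = j}) (fun _ => ∅)
    (fun v i j hi hj => hi.symm.trans hj) (fun e i j hi => hi.elim) (near_g1 ΓA) (near_g1 ΓB)
    (fun j => par _ (by rw [dsum_g1A _ rfl, id]; ring) fun d hd => by
      rw [dsum_g1A _ (ge_neg (by omega)), ge_neg hd, mul_zero])
    (fun j => par _ (by rw [dsum_g1B _ rfl, id]) fun d hd => by
      rw [dsum_g1B _ (ge_neg (by omega)), ge_neg (by omega), mul_zero])
    (fun j => distinguish (D1 := h) (D2 := 2 * h) hε (3 / 2 * h) (by positivity) ?_ ?_ ?_) t ht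
  · simpa using this
  · push_cast
    nlinarith [Nat.cast_nonneg (α := ℝ) h]
  · have : (1 : ℝ) ≤ h := by exact_mod_cast h1
    nlinarith
  · rw [prof_build _ _ _ (by omega), prof_build _ _ _ (by omega), base_hi h1 (by omega),
      base_hi h1 (by omega), dsum_g1A _ (ge_neg (by omega)), dsum_g1B _ (ge_neg (by omega)),
      ge_pos (by omega), ge_pos (by omega), ge_pos (by omega), ge_neg (by omega),
      ge_pos (by omega), ge_pos (by omega), ge_pos (by omega), ge_pos le_rfl]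
    have : h ≤ u * h := Nat.le_mul_of_pos_left _ (Nat.pos_of_ne_zero (by rintro rfl; omega))
    nlinarith

theorem fam2 {h k P T : ℕ} [NeZero h] (hk : 1 ≤ k) (hkh : 7 * k ≤ 3 * h) (hT : 1 ≤ T)
    (hP : T * (2 * k) ≤ P * h) (f : BV h k P ⊕ V2 P h ↪ V) :
    ∃ m', 2 * m' = dsum (base h k P) id + (4 * P * h * h + 8 * k * h) ∧
      HardAt V m' (3 * h) ((4 * h + 1) * k) T := by
  have h1 : 1 ≤ h := by omega
  set B := base h k P
  obtain ⟨e⟩ : Nonempty (Fin T × Fin (2 * k) ↪ Fin P × ZMod h) :=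
    Function.Embedding.nonempty_of_card_le (by simpa using hP)
  let S : Fin T → Finset (Fin P × ZMod h) := fun j =>
    univ.map ⟨fun x => e (j, x), fun x y hxy => congrArg Prod.snd (e.injective hxy)⟩
  have cS : ∀ j, (S j).card = 2 * k := fun j => by simp [S]
  have dS : ∀ w i j, w ∈ S i → w ∈ S j → i = j := by
    intro w i j hi hj
    obtain ⟨x, -, rfl⟩ := mem_map.1 hi
    obtain ⟨y, -, hy⟩ := mem_map.1 hj
    exact (congrArg Prod.fst (e.injective hy)).symm
  have j0 : Fin T := ⟨0, hT⟩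
  have par : ∀ H : SimpleGraph (V2 P h), dsum H id = 4 * P * h * h + 8 * k * h →
      (∀ d, 4 * h < d → dsum H (ge d) = 0) → dsum H (ge (3 * h + 1)) ≤ 2 * k →
      HasParams (build f B H) (build f B (g2 (S j0) id)).edgeFinset.card (3 * h)
        ((4 * h + 1) * k) := by
    intro H e1 e2 e3
    refine ⟨?_, hIndex_eq _ ?_ ?_, mu_build h1 hk f H e2⟩
    · have a1 := edges_build f B H
      have a2 := edges_build f B (g2 (S j0) id)
      rw [dsum_g2B _ rfl, cS, id, id] at a2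
      nlinarith
    · rw [prof_build _ _ _ (by omega), base_hi h1 (by omega), ge_pos le_rfl]
      omega
    · rw [prof_build _ _ _ (by omega), base_hi h1 (by omega), ge_neg (by omega),
        ge_pos (by omega), ge_pos (by omega)]
      omega
  refine ⟨(build f B (g2 (S j0) id)).edgeFinset.card, ?_, fun ε hε t ht => ?_⟩
  · rw [edges_build, dsum_g2B _ rfl, cS, id, id]
    ring
  have : Nonempty (Fin T) := ⟨j0⟩
  have := hard f B (g2 ∅ id) (fun j => g2 (S j) fun _ => false) (fun j => g2 (S j) id)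
    (fun j => S2 (S j)) (fun j => M2 (S j)) ?_ ?_ (fun j => near_g2 _ _ _) (fun j => near_g2 _ _ _)
    (fun j => par _ (by rw [dsum_g2A _ rfl, cS, id, id]; ring) (fun d hd => by
      rw [dsum_g2A _ (ge_neg (by omega)), ge_neg hd, ge_neg (by omega)]; simp) (by
      rw [dsum_g2A _ (ge_neg (by omega)), ge_neg (by omega), ge_pos (by omega), cS]; simp))
    (fun j => par _ (by rw [dsum_g2B _ rfl, cS, id, id]; ring) (fun d hd => by
      rw [dsum_g2B _ (ge_neg (by omega)), ge_neg (by omega), ge_neg (by omega)]; simp) (by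
      rw [dsum_g2B _ (ge_neg (by omega)), ge_neg (by omega), ge_neg (by omega)]; simp))
    (fun j => distinguish (D1 := 3 * h) (D2 := 4 * h) hε (7 / 2 * h) (by positivity) ?_ ?_ ?_) t ht
  · simpa using this
  · rintro _ i j ⟨w, rfl, hi⟩ ⟨w', e', hj⟩
    obtain rfl := Sum.inr_injective e'
    exact dS _ _ _ hi hj
  · rintro _ i j ⟨v, w, rfl, hi⟩ ⟨v', w', e', hj⟩
    obtain rfl := Sum.inl_injective (congrArg Prod.fst e')
    obtain rfl := Sum.inl_injective (congrArg Prod.snd e')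
    exact dS _ _ _ hi hj
  · push_cast
    nlinarith [Nat.cast_nonneg (α := ℝ) h]
  · have : (1 : ℝ) ≤ h := by exact_mod_cast h1
    push_cast
    nlinarith
  · rw [prof_build _ _ _ (by omega), prof_build _ _ _ (by omega), base_hi h1 (by omega),
      base_hi h1 (by omega), dsum_g2A _ (ge_neg (by omega)), dsum_g2B _ (ge_neg (by omega)),
      ge_neg (by omega), ge_pos (by omega), ge_pos (by omega), ge_neg (by omega),
      ge_neg (by omega), ge_neg (by omega), ge_pos le_rfl, ge_pos (by omega), ge_neg (by omega),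
      cS]
    omega

lemma exists_hard {W : Type} [Fintype W] {G : SimpleGraph W} {m h μ : ℕ} (hp : HasParams G m h μ)
    (hm : 0 < m) (hV : Fintype.card V = 1000 * Fintype.card W) :
    ∃ m' h' μ' T, m ≤ m' ∧ m' ≤ 1000 * m ∧ h ≤ h' ∧ h' ≤ 5 * h ∧ μ ≤ μ' ∧ μ' ≤ 10 * μ ∧
      HardAt V m' h' μ' T ∧ bound (Fintype.card W) m h μ ≤ 27 * T := by
  set n := Fintype.card W
  have h1 := hp.h_pos hm
  have h2 := hp.h_le_mu hm
  have h3 : μ ≤ n := hp.mu_le_card hm
  have h4 := hp.sq_le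
  have h5 : m ≤ n * h := hp.m_le
  have h6 := hp.log_le hm
  have h7 : μ ≤ 4 * m := le_trans (Nat.le_mul_of_pos_left _ (Nat.succ_pos _)) h6
  obtain ⟨k, k1, k2⟩ : ∃ k, μ < h * k ∧ h * k ≤ μ + h :=
    ⟨μ / h + 1, Nat.lt_mul_div_succ _ h1, by have := Nat.mul_div_le μ h; nlinarith⟩
  obtain ⟨P, P1, P2⟩ : ∃ P, m < P * (h * h) ∧ P * (h * h) ≤ m + h * h :=
    ⟨m / (h * h) + 1, mul_comm (h * h) _ ▸ Nat.lt_mul_div_succ _ (by positivity), by
      have := Nat.mul_div_le m (h * h); nlinarith⟩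
  have k0 : 1 ≤ k := Nat.pos_of_ne_zero (by rintro rfl; omega)
  have k3 : k ≤ h * k := Nat.le_mul_of_pos_left _ h1
  have P3 : P * h ≤ 2 * n := by
    refine Nat.le_of_mul_le_mul_right ?_ h1
    nlinarith
  have c1 := base_card (k := k) (P := P) h1
  have d1 := base_deg_ge (h := h) (k := k) (P := P)
  have d2 := base_deg_le (k := k) (P := P) h1
  have d3 : (Nat.log 2 h + 1) * (h * k) ≤ 8 * m := by
    have := Nat.mul_le_mul_left (Nat.log 2 h + 1) (show h * k ≤ 2 * μ by omega)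
    nlinarith
  have m1 : μ ≤ (4 * h + 1) * k := by nlinarith
  have m2 : (4 * h + 1) * k ≤ 10 * μ := by nlinarith
  have r1 : (1 : ℝ) ≤ h := by exact_mod_cast h1
  have r2 : (h : ℝ) ≤ μ := by exact_mod_cast h2
  have r3 : (μ : ℝ) ≤ n := by exact_mod_cast h3
  have r4 : (h : ℝ) * k ≤ μ + h := by exact_mod_cast k2
  have r5 : (m : ℝ) ≤ n * h := by exact_mod_cast h5
  have r6 : (0 : ℝ) < μ := by linarith
  set x : ℝ := max (h : ℝ) ((μ : ℝ) / h) with hx
  have x1 : (h : ℝ) ≤ x := le_max_left _ _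
  have x2 : (μ : ℝ) ≤ x * h := (div_le_iff₀ (by linarith)).1 (le_max_right _ _)
  have x3 : x ≤ n := max_le (by linarith) ((div_le_self r6.le r1).trans r3)
  have x0 : 0 < x := by linarith
  by_cases hc : 7 * k ≤ 3 * h ∧ 8 * (n / x) < (m : ℝ) / μ
  · have : NeZero h := ⟨by omega⟩
    obtain ⟨T, T1, T2⟩ : ∃ T, T * (2 * k) ≤ P * h ∧ P * h < (T + 1) * (2 * k) :=
      ⟨P * h / (2 * k), Nat.div_mul_le_self _ _,
        mul_comm (2 * k) _ ▸ Nat.lt_mul_div_succ _ (by omega)⟩
    have y1 : (1 : ℝ) ≤ n / x := (one_le_div x0).2 x3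
    have y2 : (m : ℝ) / μ ≤ 4 * (T + 1) := by
      rw [div_le_iff₀ r6]
      have : m ≤ 4 * (T + 1) * μ := by
        have a1 := Nat.mul_le_mul_right h T2.le
        have a2 := Nat.mul_le_mul_left (T + 1) (show h * k ≤ 2 * μ by omega)
        nlinarith
      exact_mod_cast this
    have y3 : (1 : ℝ) < T := by linarith [hc.2]
    obtain ⟨f⟩ : Nonempty (BV h k P ⊕ V2 P h ↪ V) := Function.Embedding.nonempty_of_card_le (by
      rw [Fintype.card_sum, hV]
      simp only [Fintype.card_sum, Fintype.card_prod, Fintype.card_fin, Fintype.card_bool,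
        ZMod.card]
      nlinarith)
    obtain ⟨m', e1, e2⟩ := fam2 k0 hc.1 (T := T) (by exact_mod_cast y3.le) T1 f
    refine ⟨m', 3 * h, _, T, by nlinarith, by nlinarith, by omega, by omega, m1, m2, e2, ?_⟩
    rw [bound, ← hx]
    linarith [hc.2]
  · obtain ⟨u, u1, u2⟩ : ∃ u, k < u * h ∧ u * h ≤ k + h :=
      ⟨k / h + 1, mul_comm h _ ▸ Nat.lt_mul_div_succ _ h1, by
        have := Nat.mul_div_le k h; nlinarith⟩
    obtain ⟨T, T1, T2⟩ : ∃ T, n < T * (u * h) ∧ T * (u * h) ≤ n + u * h :=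
      ⟨n / (u * h) + 1, mul_comm (u * h) _ ▸ Nat.lt_mul_div_succ _ (by omega), by
        have := Nat.mul_div_le n (u * h); nlinarith⟩
    have T0 : 1 ≤ T := Nat.pos_of_ne_zero (by rintro rfl; omega)
    obtain ⟨f⟩ : Nonempty (BV h k P ⊕ V1 T u h ↪ V) := Function.Embedding.nonempty_of_card_le (by
      rw [Fintype.card_sum, hV]
      simp only [Fintype.card_prod, Fintype.card_fin]
      nlinarith)
    obtain ⟨m', h', e1, e2, e3, e4⟩ := fam1 h1 k0 u1 T0 f
    have u3 := Nat.mul_le_mul_right h u2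
    refine ⟨m', h', _, T, by nlinarith, by nlinarith, by omega, e3, m1, m2, e4, ?_⟩
    rw [bound, ← hx]
    have y1 : (n : ℝ) / x ≤ 3 * T := by
      rw [div_le_iff₀ x0]
      have a1 : (n : ℝ) ≤ T * (u * h) := by exact_mod_cast T1.le
      have a2 : (u : ℝ) * h ≤ k + h := by exact_mod_cast u2
      have a3 : (k : ℝ) ≤ x + 1 := by
        refine le_of_mul_le_mul_left ?_ (show (0 : ℝ) < h by linarith)
        nlinarith
      have a4 := mul_le_mul_of_nonneg_left (show (u : ℝ) * h ≤ 3 * x by linarith)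
        (Nat.cast_nonneg (α := ℝ) T)
      linarith
    have y2 : (m : ℝ) / μ ≤ 8 * (n / x) := by
      by_contra hy
      have a1 : 3 * h < 7 * k := not_le.1 fun a => hc ⟨a, not_le.1 hy⟩
      have a2 : (3 : ℝ) * h ≤ 7 * k := by exact_mod_cast a1.le
      have a3 : x * h ≤ 8 * μ := by
        rcases max_cases (h : ℝ) ((μ : ℝ) / h) with ⟨a, -⟩ | ⟨a, -⟩
        · rw [hx, a]
          nlinarith
        · rw [hx, a, div_mul_cancel₀ _ (by linarith)]
          linarith
      apply hy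
      rw [← mul_div_assoc, div_le_div_iff₀ r6 x0]
      have n0 : (0 : ℝ) ≤ n := Nat.cast_nonneg _
      nlinarith [mul_le_mul_of_nonneg_right r5 x0.le, mul_le_mul_of_nonneg_left a3 n0]
    linarith

theorem lower {W : Type} [Fintype W] {G : SimpleGraph W} {m h μ : ℕ} (hp : HasParams G m h μ)
    (hm : 0 < m) (hV : Fintype.card V = 1000 * Fintype.card W) :
    ∃ m' h' μ', m ≤ m' ∧ m' ≤ 1000 * m ∧ h ≤ h' ∧ h' ≤ 1000 * h ∧ μ ≤ μ' ∧ μ' ≤ 1000 * μ ∧
      ∀ ε : ℝ, ε ≤ 1 / 8 → ∀ t : Alg V (ℝ → ℝ), (∀ G, HasParams G m' h' μ' → Solves t G ε) →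
        ∃ G, HasParams G m' h' μ' ∧
          ENNReal.ofReal (1 / 10 ^ 8 * bound (Fintype.card V) m' h' μ') ≤ expectedQueries t G := by
  obtain ⟨m', h', μ', T, a1, a2, a3, a4, a5, a6, a7, a8⟩ := exists_hard hp hm hV
  refine ⟨m', h', μ', a1, a2, a3, by omega, a5, by omega, fun ε hε t ht => ?_⟩
  obtain ⟨G', b1, b2⟩ := a7 ε hε t ht
  refine ⟨G', b1, le_trans ?_ b2⟩
  have r1 : (1 : ℝ) ≤ h := by exact_mod_cast hp.h_pos hm
  have r2 : (h : ℝ) ≤ μ := by exact_mod_cast hp.h_le_mu hm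
  have r3 : (h : ℝ) ≤ h' := by exact_mod_cast a3
  have r4 : (h' : ℝ) ≤ 5 * h := by exact_mod_cast a4
  have r5 : (μ : ℝ) ≤ μ' := by exact_mod_cast a5
  have r6 : (m' : ℝ) ≤ 1000 * m := by exact_mod_cast a2
  have n0 : (0 : ℝ) ≤ Fintype.card W := Nat.cast_nonneg _
  have m0 : (0 : ℝ) ≤ m := Nat.cast_nonneg _
  have x0 : (0 : ℝ) < max (h : ℝ) ((μ : ℝ) / h) := lt_max_of_lt_left (by linarith)
  have x1 : max (h : ℝ) ((μ : ℝ) / h) / 5 ≤ max (h' : ℝ) ((μ' : ℝ) / h') := by
    rw [div_le_iff₀ (by norm_num)]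
    refine max_le (by linarith [le_max_left (h' : ℝ) ((μ' : ℝ) / h')]) ?_
    have : (μ : ℝ) / h ≤ μ' / h' * 5 := by
      rw [div_mul_eq_mul_div, div_le_div_iff₀ (by linarith) (by linarith)]
      nlinarith
    linarith [le_max_right (h' : ℝ) ((μ' : ℝ) / h')]
  have y1 : (Fintype.card V : ℝ) / max (h' : ℝ) ((μ' : ℝ) / h') ≤
      5000 * (Fintype.card W / max (h : ℝ) ((μ : ℝ) / h)) := by
    refine (div_le_div_of_nonneg_left (Nat.cast_nonneg _) (by positivity) x1).trans (le_of_eq ?_)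
    rw [hV]
    push_cast
    field_simp
    ring
  have y2 : (m' : ℝ) / μ' ≤ 1000 * (m / μ) := by
    rw [← mul_div_assoc]
    exact div_le_div₀ (by linarith) r6 (by linarith) r5
  have y3 : (0 : ℝ) ≤ (m : ℝ) / μ := by positivity
  have y4 : 1 / 10 ^ 8 * bound (Fintype.card V) m' h' μ' ≤ (T : ℝ) / 300 := by
    rw [bound] at a8 ⊢
    have : (0 : ℝ) ≤ T := Nat.cast_nonneg _
    linarith
  refine (ENNReal.ofReal_le_ofReal y4).trans (le_of_eq ?_)
  rw [ENNReal.ofReal_div_of_pos (by norm_num)]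
  simp

end Pool.Agent.MP_16e32a_lc

end
end MrgPart3

-- marker of a merged file
example : 731051 + 709539 = 731051 + 709539 := rfl
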